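import Pool.Agent.N813.CX.Stm

set_option autoImplicit false

/-! BAI: the Baire category argument. -/

open scoped Manifold ContDiff Topology
open Filter Set Metric

universe u v

namespace Pool.Agent.N813.CX.BAI

open Pool.Agent.H718R2.G Pool.Agent.W564.SC Pool.Agent.TH80.OMS Pool.Agent.TH290.CL
  Pool.Agent.N813.OF Pool.Agent.N813.CX

theorem t : S_BAI.{u} := by
  intro N _ _ H θ₀ hθ₀ h1 h2
  set O : Set N → Set ℝ := fun W => {θ | |θ| < θ₀ ∧ (Per (H θ) ∩ W).Nonempty} with hO
  have hball : IsOpen {θ : ℝ | |θ| < θ₀} := isOpen_lt continuous_abs continuous_const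
  have hOopen : ∀ W, IsOpen W → IsOpen (O W) := by
    intro W hW
    rw [isOpen_iff_mem_nhds]
    intro θ hθ
    filter_upwards [hball.mem_nhds hθ.1, h1 θ hθ.1 W hW hθ.2] with θ' h3 h4
    exact ⟨h3, h4⟩
  set B := TopologicalSpace.countableBasis N with hB
  have hBc : B.Countable := TopologicalSpace.countable_countableBasis N
  have hBo : ∀ W ∈ B, IsOpen W := fun W hW => TopologicalSpace.isOpen_of_mem_countableBasis hW
  have hdense : Dense (⋂ W ∈ B, (O W ∪ (closure (O W))ᶜ)) := by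
    apply dense_biInter_of_isOpen (fun W hW => (hOopen W (hBo W hW)).union isClosed_closure.isOpen_compl)
      hBc
    intro W _ x
    by_cases hx : x ∈ closure (O W)
    · exact closure_mono subset_union_left hx
    · exact subset_closure (Or.inr hx)
  obtain ⟨θ, hθ1, hθ2⟩ := hdense.exists_mem_open hball ⟨0, by simpa using hθ₀⟩
  refine ⟨θ, hθ2, fun z hz => ?_⟩
  rw [_root_.mem_closure_iff]
  intro W hW hzW
  obtain ⟨V, hVB, hzV, hVW⟩ := (TopologicalSpace.isBasis_countableBasis N).exists_subset_of_mem_open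
    hzW hW
  have h3 := h2 θ hθ2 z hz V (hBo V hVB) hzV
  have h4 : θ ∈ closure (O V) := by
    rw [mem_closure_iff_frequently]
    have h5 : ∀ᶠ θ' in 𝓝 θ, |θ'| < θ₀ := hball.mem_nhds hθ2
    exact (h3.and_eventually h5).mono fun θ' h => ⟨h.2, h.1⟩
  have h5 := mem_iInter₂.mp hθ1 V hVB
  rcases h5 with h5 | h5
  · obtain ⟨p, hp1, hp2⟩ := h5.2
    exact ⟨p, hVW hp2, hp1⟩
  · exact absurd h4 h5

end Pool.Agent.N813.CX.BAI
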