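import Pool.Agent.N813.CX.Stm

/-!
# Project CX: closing nonwandering points by rotations of the fibres
-/

set_option autoImplicit false

open scoped Manifold ContDiff Topology
open Filter Set Metric

universe u v

namespace Pool.Agent.N813.CX.CLOS

/-- two points of a fibre which are close differ by a small rotation -/
theorem u1 {N : Type u} [MetricSpace N] [CompactSpace N] {F : N → N} {ψ : ℝ → N → N}
    {a : N → ℝ → ℝ} (h : TopExt F ψ a) (ε : ℝ) (hε : 0 < ε) :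
    ∃ δ : ℝ, 0 < δ ∧ ∀ (y : N) (t : ℝ), dist (ψ t y) y < δ → ∃ σ, |σ| < ε ∧ ψ t y = ψ σ y := by
  have hK : IsCompact (Icc ε (1 - ε) ×ˢ (univ : Set N)) := isCompact_Icc.prod isCompact_univ
  have hc : Continuous fun q : ℝ × N => dist (ψ q.1 q.2) q.2 := h.cont.dist continuous_snd
  obtain ⟨δ, hδ, hδ'⟩ := hK.exists_forall_le' hc.continuousOn (a := 0) (by
    rintro ⟨t, y⟩ ⟨ht, -⟩
    have ht1 : ε ≤ t := ht.1
    have ht2 : t ≤ 1 - ε := ht.2
    apply dist_pos.2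
    intro he
    obtain ⟨j, hj⟩ := (h.free y t).1 he
    have h1 : (0 : ℝ) < j := by rw [← hj]; linarith
    have h2 : (j : ℝ) < 1 := by rw [← hj]; linarith
    have h3 : 0 < j := by exact_mod_cast h1
    have h4 : j < 1 := by exact_mod_cast h2
    omega)
  refine ⟨δ, hδ, fun y t hd => ?_⟩
  have hfl : ψ t y = ψ (Int.fract t) y := by
    have h1 : ψ (⌊t⌋ : ℝ) y = y := (h.free y _).2 ⟨_, rfl⟩
    calc ψ t y = ψ (Int.fract t + ⌊t⌋) y := by rw [Int.fract_add_floor]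
      _ = ψ (Int.fract t) y := by rw [h.add, h1]
  by_cases h1 : Int.fract t < ε
  · exact ⟨Int.fract t, by rw [abs_of_nonneg (Int.fract_nonneg t)]; exact h1, hfl⟩
  by_cases h2 : 1 - ε < Int.fract t
  · refine ⟨Int.fract t + (-1 : ℝ), ?_, ?_⟩
    · have h3 := Int.fract_lt_one t
      rw [abs_of_nonpos (by linarith)]
      linarith
    · have h4 : ψ (-1 : ℝ) y = y := (h.free y _).2 ⟨-1, by norm_num⟩
      rw [h.add, h4, hfl]
  · exfalso
    have h5 := hδ' (Int.fract t, y) ⟨⟨not_lt.1 h1, not_lt.1 h2⟩, mem_univ _⟩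
    have h6 : δ ≤ dist (ψ (Int.fract t) y) y := h5
    rw [← hfl] at h6
    linarith

/-- the projection is uniformly open -/
theorem u2 {N : Type u} [MetricSpace N] [CompactSpace N] {B : Type v} [MetricSpace B] {F : N → N}
    {ψ : ℝ → N → N} {a : N → ℝ → ℝ} {π : N → B} {f : B → B} (h : TopExt F ψ a)
    (hπ : OrbitMap F ψ π f) (δ₂ : ℝ) (hδ₂ : 0 < δ₂) :
    ∃ δ : ℝ, 0 < δ ∧ ∀ (p : N) (b : B), dist b (π p) < δ → ∃ q, π q = b ∧ dist q p < δ₂ := by
  by_contra hcon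
  push Not at hcon
  have h1 : ∀ k : ℕ, ∃ x : N × N, dist (π x.2) (π x.1) < 1 / ((k : ℝ) + 1) ∧
      ∀ q, π q = π x.2 → δ₂ ≤ dist q x.1 := by
    intro k
    obtain ⟨p, b, hb, hq⟩ := hcon (1 / ((k : ℝ) + 1)) Nat.one_div_pos_of_nat
    obtain ⟨q, rfl⟩ := hπ.surj b
    exact ⟨(p, q), hb, hq⟩
  choose x hx hx' using h1
  obtain ⟨⟨p, q⟩, φ, hφ, hlim⟩ := CompactSpace.tendsto_subseq x
  have hp : Tendsto (fun k => (x (φ k)).1) atTop (𝓝 p) :=
    (continuous_fst.tendsto (p, q)).comp hlim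
  have hq : Tendsto (fun k => (x (φ k)).2) atTop (𝓝 q) :=
    (continuous_snd.tendsto (p, q)).comp hlim
  have hd : Tendsto (fun k => dist (π (x (φ k)).2) (π (x (φ k)).1)) atTop (𝓝 (dist (π q) (π p))) :=
    ((hπ.cont.tendsto q).comp hq).dist ((hπ.cont.tendsto p).comp hp)
  have hd0 : Tendsto (fun k => dist (π (x (φ k)).2) (π (x (φ k)).1)) atTop (𝓝 0) := by
    refine squeeze_zero (fun _ => dist_nonneg) (fun k => (hx (φ k)).le) ?_
    exact tendsto_one_div_add_atTop_nhds_zero_nat.comp hφ.tendsto_atTop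
  have he : π q = π p := dist_eq_zero.1 (tendsto_nhds_unique hd hd0)
  obtain ⟨t, ht⟩ := (hπ.eq q p).1 he
  have hψt : Continuous (ψ t) := h.cont.comp (Continuous.prodMk continuous_const continuous_id)
  have h3 : Tendsto (fun k => dist (ψ t (x (φ k)).2) (x (φ k)).1) atTop (𝓝 (dist (ψ t q) p)) :=
    ((hψt.tendsto q).comp hq).dist hp
  have h4 : δ₂ ≤ dist (ψ t q) p := by
    refine ge_of_tendsto' h3 fun k => hx' (φ k) _ ?_
    exact ((hπ.eq _ _).2 ⟨t, rfl⟩).symm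
  rw [← ht, dist_self] at h4
  linarith

theorem semi_iter {N : Type u} [TopologicalSpace N] {B : Type v} [TopologicalSpace B] {F : N → N}
    {ψ : ℝ → N → N} {π : N → B} {f : B → B} (hπ : OrbitMap F ψ π f) (m : ℕ) (x : N) :
    π (F^[m] x) = f^[m] (π x) :=
  (Function.Semiconj.iterate_right (f := π) (ga := F) (gb := f) (fun x => hπ.semi x) m) x

/-- the positions along the pseudo-orbit of the fibres -/
noncomputable def tau (b : ℕ → ℝ → ℝ) (σ : ℕ → ℝ) (θ : ℝ) : ℕ → ℝ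
  | 0 => 0
  | i + 1 => θ + (b i (tau b σ θ i) + σ i)

theorem tau_cont (b : ℕ → ℝ → ℝ) (σ : ℕ → ℝ) (hb : ∀ i, Continuous (b i)) (i : ℕ) :
    Continuous fun θ => tau b σ θ i := by
  induction i with
  | zero => exact continuous_const
  | succ i ih => exact continuous_id.add (((hb i).comp ih).add continuous_const)

theorem tau_pos (b : ℕ → ℝ → ℝ) (σ : ℕ → ℝ) (hb : ∀ i, Monotone (b i)) (hb0 : ∀ i, b i 0 = 0)
    (ε θ : ℝ) (hε : 0 < ε) (hσ : ∀ i, |σ i| < ε) (hθ : θ = 2 * ε) (i : ℕ) :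
    0 ≤ tau b σ θ i ∧ ε < tau b σ θ (i + 1) := by
  have h1 : ∀ i, 0 ≤ tau b σ θ i → ε < tau b σ θ (i + 1) := by
    intro i hi
    have h2 := hb i hi
    rw [hb0] at h2
    have h3 := (abs_lt.1 (hσ i)).1
    show ε < θ + (b i (tau b σ θ i) + σ i)
    linarith
  have h4 : 0 ≤ tau b σ θ i := by
    induction i with
    | zero => exact le_rfl
    | succ i ih => exact (hε.trans (h1 i ih)).le
  exact ⟨h4, h1 i h4⟩

theorem tau_neg (b : ℕ → ℝ → ℝ) (σ : ℕ → ℝ) (hb : ∀ i, Monotone (b i)) (hb0 : ∀ i, b i 0 = 0)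
    (ε θ : ℝ) (hε : 0 < ε) (hσ : ∀ i, |σ i| < ε) (hθ : θ = -(2 * ε)) (i : ℕ) :
    tau b σ θ i ≤ 0 ∧ tau b σ θ (i + 1) < -ε := by
  have h1 : ∀ i, tau b σ θ i ≤ 0 → tau b σ θ (i + 1) < -ε := by
    intro i hi
    have h2 := hb i hi
    rw [hb0] at h2
    have h3 := (abs_lt.1 (hσ i)).2
    show θ + (b i (tau b σ θ i) + σ i) < -ε
    linarith
  have h4 : tau b σ θ i ≤ 0 := by
    induction i with
    | zero => exact le_rfl
    | succ i ih => exact ((h1 i ih).trans (neg_lt_zero.2 hε)).le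
  exact ⟨h4, h1 i h4⟩

theorem t : S_CLOS.{u, v} := by
  intro N _ _ B _ F ψ a π f hF h hπ hcl z hz W hW hzW ε hε
  obtain ⟨ε₁, hε₁, hε₁'⟩ : ∃ ε₁ : ℝ, 0 < ε₁ ∧ 2 * ε₁ < ε := ⟨ε / 4, by linarith, by linarith⟩
  obtain ⟨δ₁, hδ₁, H1⟩ := u1 h ε₁ hε₁
  obtain ⟨r, hr, hrW⟩ := Metric.isOpen_iff.1 hW z hzW
  obtain ⟨δc, hδc, H2⟩ := Metric.uniformContinuous_iff.1
    (CompactSpace.uniformContinuous_of_continuous hF) (δ₁ / 4) (by linarith)
  obtain ⟨δ₂, hδ₂, d1, d2, d3⟩ : ∃ δ₂ : ℝ, 0 < δ₂ ∧ δ₂ ≤ δ₁ / 4 ∧ δ₂ ≤ r / 2 ∧ δ₂ ≤ δc :=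
    ⟨min (δ₁ / 4) (min (r / 2) δc), by positivity, min_le_left _ _,
      (min_le_right _ _).trans (min_le_left _ _), (min_le_right _ _).trans (min_le_right _ _)⟩
  obtain ⟨δ, hδ, H3⟩ := u2 h hπ δ₂ hδ₂
  obtain ⟨η, hη, H4⟩ := hcl δ hδ
  obtain ⟨m, hm, y, ⟨hy1, hy2⟩, hy3, hy4⟩ := hz
    (ball z (min (r / 2) (δ₁ / 4)) ∩ π ⁻¹' ball (π z) (η / 2))
    (isOpen_ball.inter (isOpen_ball.preimage hπ.cont))
    ⟨mem_ball_self (by positivity), mem_ball_self (by positivity)⟩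
  rw [mem_ball] at hy1 hy3
  rw [mem_preimage, mem_ball] at hy2 hy4
  have e1 : dist (f^[m] (π y)) (π y) < η := by
    rw [← semi_iter hπ]
    calc dist (π (F^[m] y)) (π y) ≤ dist (π (F^[m] y)) (π z) + dist (π y) (π z) :=
          dist_triangle_right _ _ _
      _ < η := by linarith
  have e2 : dist (F^[m] y) y < δ₁ / 2 := by
    have h1 := min_le_right (r / 2) (δ₁ / 4)
    calc dist (F^[m] y) y ≤ dist (F^[m] y) z + dist y z := dist_triangle_right _ _ _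
      _ < δ₁ / 2 := by linarith
  obtain ⟨x', hx', hsh⟩ := H4 (π y) m hm e1
  -- the points above the periodic orbit
  have h5 : ∀ i, ∃ q : N, i ≤ m → π q = f^[i] x' ∧ dist q (F^[i] y) < δ₂ := by
    intro i
    by_cases hi : i ≤ m
    · obtain ⟨q, h1, h2⟩ := H3 (F^[i] y) (f^[i] x') (by rw [semi_iter hπ]; exact hsh i hi)
      exact ⟨q, fun _ => ⟨h1, h2⟩⟩
    · exact ⟨y, fun h => absurd h hi⟩
  choose q hq using h5
  have h6 : ∀ i, ∃ σ : ℝ, |σ| < ε₁ ∧ (i < m → F (q i) = ψ σ (q (i + 1))) := by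
    intro i
    by_cases hi : i < m
    · have h1 := hq i hi.le
      have h2 := hq (i + 1) hi
      have h3 : π (q (i + 1)) = π (F (q i)) := by
        rw [h2.1, hπ.semi, h1.1, Function.iterate_succ_apply']
      obtain ⟨t, ht⟩ := (hπ.eq _ _).1 h3
      have h4 : dist (ψ t (q (i + 1))) (q (i + 1)) < δ₁ := by
        rw [← ht]
        have h7 : dist (F (q i)) (F (F^[i] y)) < δ₁ / 4 := H2 (h1.2.trans_le d3)
        have h8 : dist (q (i + 1)) (F (F^[i] y)) < δ₂ := by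
          rw [← Function.iterate_succ_apply' F]; exact h2.2
        calc dist (F (q i)) (q (i + 1)) ≤ dist (F (q i)) (F (F^[i] y)) +
              dist (q (i + 1)) (F (F^[i] y)) := dist_triangle_right _ _ _
          _ < δ₁ := by linarith
      obtain ⟨σ, hσ, hσ'⟩ := H1 _ _ h4
      exact ⟨σ, hσ, fun _ => by rw [ht, hσ']⟩
    · exact ⟨0, by simpa using hε₁, fun h => absurd h hi⟩
  choose σ hσ hσ' using h6
  have h7 : ∃ σ' : ℝ, |σ'| < ε₁ ∧ q m = ψ σ' (q 0) := by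
    have h1 := hq m le_rfl
    have h2 := hq 0 (Nat.zero_le m)
    have h3 : π (q 0) = π (q m) := by
      rw [h1.1, h2.1, hx']; rfl
    obtain ⟨t, ht⟩ := (hπ.eq _ _).1 h3
    have h4 : dist (ψ t (q 0)) (q 0) < δ₁ := by
      rw [← ht]
      have h8 : dist (q 0) y < δ₂ := h2.2
      calc dist (q m) (q 0) ≤ dist (q m) (F^[m] y) + dist (F^[m] y) y + dist y (q 0) :=
            dist_triangle4 _ _ _ _
        _ < δ₁ := by rw [dist_comm y]; linarith [h1.2]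
    obtain ⟨σ', h5, h6⟩ := H1 _ _ h4
    exact ⟨σ', h5, by rw [ht, h6]⟩
  obtain ⟨σ', hσ1, hσ2⟩ := h7
  let b : ℕ → ℝ → ℝ := fun i => a (q i)
  have hb : ∀ i, Monotone (b i) := fun i => (h.amono (q i)).monotone
  have hb0 : ∀ i, b i 0 = 0 := fun i => h.azero (q i)
  have hbc : ∀ i, Continuous (b i) := fun i => h.acont (q i)
  have key : ∀ θ i, i ≤ m → (fun y => ψ θ (F y))^[i] (q 0) = ψ (tau b σ θ i) (q i) := by
    intro θ i
    induction i with
    | zero => intro _; exact (h.zero (q 0)).symm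
    | succ i ih =>
      intro hi
      rw [Function.iterate_succ_apply', ih (Nat.le_of_succ_le hi)]
      show ψ θ (F (ψ (tau b σ θ i) (q i))) = ψ (θ + (b i (tau b σ θ i) + σ i)) (q (i + 1))
      rw [h.ext, hσ' i hi, h.add, h.add]
  have hTc : Continuous fun θ => tau b σ θ m + σ' := (tau_cont b σ hbc m).add continuous_const
  obtain ⟨m', rfl⟩ : ∃ m', m = m' + 1 := ⟨m - 1, by omega⟩
  have hT1 : 0 < tau b σ (2 * ε₁) (m' + 1) + σ' := by
    have h1 := (tau_pos b σ hb hb0 ε₁ (2 * ε₁) hε₁ hσ rfl m').2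
    have h2 := (abs_lt.1 hσ1).1
    linarith
  have hT2 : tau b σ (-(2 * ε₁)) (m' + 1) + σ' < 0 := by
    have h1 := (tau_neg b σ hb hb0 ε₁ (-(2 * ε₁)) hε₁ hσ rfl m').2
    have h2 := (abs_lt.1 hσ1).2
    linarith
  obtain ⟨θ, ⟨hθ1, hθ2⟩, hθ3⟩ := intermediate_value_Icc (a := -(2 * ε₁)) (b := 2 * ε₁)
    (by linarith) hTc.continuousOn ⟨hT2.le, hT1.le⟩
  refine ⟨θ, ?_, q 0, hrW ?_, m' + 1, hm, ?_⟩
  · rw [abs_lt]; constructor <;> linarith
  · rw [mem_ball]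
    have h1 : dist (q 0) y < δ₂ := (hq 0 (Nat.zero_le _)).2
    have h2 := min_le_left (r / 2) (δ₁ / 4)
    calc dist (q 0) z ≤ dist (q 0) y + dist y z := dist_triangle _ _ _
      _ < r := by linarith
  · rw [key θ _ le_rfl, hσ2, ← h.add]
    have h3 : tau b σ θ (m' + 1) + σ' = 0 := hθ3
    rw [h3, h.zero]

end Pool.Agent.N813.CX.CLOS
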