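import Pool.Agent.N813.CX.Stm

/-!
# Project CX: density of the periodic points is invariant under `Ω`-conjugacies
-/

set_option autoImplicit false

open Filter Set Topology

universe u

namespace Pool.Agent.N813.CX.CONJ

open Pool.Agent.TH80.OMS

theorem omega_map {N : Type u} [TopologicalSpace N] {F : N → N} (hF : Continuous F) {x : N}
    (hx : x ∈ Omega F) : F x ∈ Omega F := by
  intro W hW hxW
  obtain ⟨k, hk, y, hy, hky⟩ := hx (F ⁻¹' W) (hW.preimage hF) hxW
  refine ⟨k, hk, F y, hy, ?_⟩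
  rw [← Function.iterate_succ_apply, Function.iterate_succ_apply']
  exact hky

theorem omega_iter {N : Type u} [TopologicalSpace N] {F : N → N} (hF : Continuous F) (m : ℕ)
    {x : N} (hx : x ∈ Omega F) : F^[m] x ∈ Omega F := by
  induction m with
  | zero => exact hx
  | succ m ih =>
    rw [Function.iterate_succ_apply']
    exact omega_map hF ih

theorem per_sub {N : Type u} [TopologicalSpace N] (G : N → N) : Per G ⊆ Omega G := by
  rintro p ⟨m, hm, hp⟩ W _ hpW
  exact ⟨m, hm, p, hpW, by rw [hp]; exact hpW⟩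

theorem conj_iter {N : Type u} [TopologicalSpace N] {F G : N → N} (hF : Continuous F)
    (h : Omega F ≃ₜ Omega G) (hc : ∀ x y : Omega F, F x = y → G (h x) = h y) (m : ℕ)
    (x : Omega F) : G^[m] (h x) = h ⟨F^[m] x, omega_iter hF m x.2⟩ := by
  induction m with
  | zero => rfl
  | succ m ih =>
    rw [Function.iterate_succ_apply', ih]
    exact hc _ _ (Function.iterate_succ_apply' F m (x : N)).symm

/-- density of the periodic points is invariant under `Ω`-conjugacies -/
theorem t : S_CONJ.{u} := by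
  rintro N _ F G hF ⟨h, hc⟩ hd z hz
  rw [mem_closure_iff]
  intro W hW hzW
  have hO : IsOpen {q : Omega G | ((h.symm q : Omega F) : N) ∈ W} :=
    hW.preimage (continuous_subtype_val.comp h.symm.continuous)
  obtain ⟨W', hW', hWW⟩ := isOpen_induced_iff.1 hO
  have hmem : ∀ q : Omega G, (q : N) ∈ W' ↔ ((h.symm q : Omega F) : N) ∈ W := by
    intro q
    have : q ∈ (Subtype.val ⁻¹' W' : Set (Omega G)) ↔
        q ∈ {q : Omega G | ((h.symm q : Omega F) : N) ∈ W} := by rw [hWW]
    exact this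
  have h1 : ((h ⟨z, hz⟩ : Omega G) : N) ∈ W' := by
    rw [hmem, h.symm_apply_apply]
    exact hzW
  obtain ⟨p, hpW, hp⟩ := mem_closure_iff.1 (hd (h ⟨z, hz⟩).2) W' hW' h1
  have hpO : p ∈ Omega G := per_sub G hp
  obtain ⟨m, hm, hpm⟩ := hp
  refine ⟨((h.symm ⟨p, hpO⟩ : Omega F) : N), (hmem ⟨p, hpO⟩).1 hpW, m, hm, ?_⟩
  have h2 := conj_iter hF h hc m (h.symm ⟨p, hpO⟩)
  rw [h.apply_symm_apply] at h2
  have h3 : h ⟨F^[m] (h.symm ⟨p, hpO⟩ : Omega F), omega_iter hF m (h.symm ⟨p, hpO⟩).2⟩ =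
      ⟨p, hpO⟩ := Subtype.ext (h2.symm.trans hpm)
  have h4 := congrArg h.symm h3
  rw [h.symm_apply_apply] at h4
  exact congrArg Subtype.val h4

end Pool.Agent.N813.CX.CONJ
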