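import Pool.Agent.N813.OF.Main
import Pool.Agent.TH80.CLX.Fam
import Pool.Agent.TH290.CL.Flow

/-!
# Project CX: `Ω`-stable circle extensions (definitions)

`DiffM n N r = Diff^r(N)`, `OmegaStable`, `Omega`, `Per F`, `IsFlow`, `DerAt`, `Eig`: as in projects OF
and UF.
-/

set_option autoImplicit false

open scoped Manifold ContDiff Topology
open Filter Set Metric

universe u v

namespace Pool.Agent.N813.CX

open Pool.Agent.H718R2.G Pool.Agent.W564.SC Pool.Agent.TH80.OMS Pool.Agent.TH290.CL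
  Pool.Agent.N813.OF

/-- `ψ` is a free action of the circle `ℝ / ℤ` on `N`, and the homeomorphism `F` maps orbits to orbits,
preserving the orientation: `F (ψ_t y) = ψ_(a_y(t)) (F y)` with increasing continuous maps `a_y` of the
line with `a_y(t + 1) = a_y(t) + 1`. -/
structure TopExt {N : Type u} [TopologicalSpace N] (F : N → N) (ψ : ℝ → N → N)
    (a : N → ℝ → ℝ) : Prop where
  cont : Continuous fun q : ℝ × N => ψ q.1 q.2
  zero : ∀ y, ψ 0 y = y
  add : ∀ s t y, ψ (s + t) y = ψ s (ψ t y)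
  free : ∀ (y : N) (t : ℝ), ψ t y = y ↔ ∃ j : ℤ, t = j
  ext : ∀ y t, F (ψ t y) = ψ (a y t) (F y)
  acont : ∀ y, Continuous (a y)
  amono : ∀ y, StrictMono (a y)
  aone : ∀ y t, a y (t + 1) = a y t + 1
  azero : ∀ y, a y 0 = 0

/-- `F` is an extension by circle diffeomorphisms: `ψ` is a smooth free action of the circle `ℝ / ℤ` on
`N` (a smooth flow with `ψ_t y = y` if and only if `t` is an integer), and `F` maps the orbits of `ψ` to
orbits, preserving the orientation. The fibre maps are arbitrary otherwise. -/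
structure CircleExt (n : ℕ) (N : Type u) [TopologicalSpace N] [ChartedSpace (V n) N] (F : N → N)
    (ψ : ℝ → N → N) : Prop where
  flow : IsFlow n N ψ
  free : ∀ (y : N) (t : ℝ), ψ t y = y ↔ ∃ j : ℤ, t = j
  fibre : ∀ y : N, ∃ a : ℝ → ℝ, Continuous a ∧ StrictMono a ∧ a 0 = 0 ∧ (∀ t, a (t + 1) = a t + 1) ∧
    ∀ t, F (ψ t y) = ψ (a t) (F y)

/-- `π : N → B` is the projection onto the space of the orbits of `ψ`, and `f` is the map of `B` induced
by `F`. -/
structure OrbitMap {N : Type u} [TopologicalSpace N] {B : Type v} [TopologicalSpace B] (F : N → N)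
    (ψ : ℝ → N → N) (π : N → B) (f : B → B) : Prop where
  cont : Continuous π
  surj : Function.Surjective π
  eq : ∀ x y, π x = π y ↔ ∃ t, y = ψ t x
  semi : ∀ x, π (F x) = f (π x)

/-- The closing property (the conclusion of the Anosov closing lemma): orbits which return close to
their initial point are shadowed by periodic orbits of the same period. -/
def ClosingProp {B : Type v} [MetricSpace B] (f : B → B) : Prop :=
  ∀ δ : ℝ, 0 < δ → ∃ η : ℝ, 0 < η ∧ ∀ (x : B) (m : ℕ), 1 ≤ m → dist (f^[m] x) x < η →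
    ∃ x' : B, f^[m] x' = x' ∧ ∀ i ≤ m, dist (f^[i] x') (f^[i] x) < δ

/-- One parameter families of lifts of circle homeomorphisms, increasing in the parameter. -/
structure Fam1 (G : ℝ → ℝ → ℝ) : Prop where
  cont : Continuous fun q : ℝ × ℝ => G q.1 q.2
  mono : ∀ θ, StrictMono (G θ)
  one : ∀ θ t, G θ (t + 1) = G θ t + 1
  inc : ∀ θ θ' t, θ ≤ θ' → G θ t + (θ' - θ) ≤ G θ' t

/-- For `|θ| < θ₀` the graphs of the iterates of `G θ` are not tangent to the lines `s = t + p`, from one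
side. -/
def NoTan (G : ℝ → ℝ → ℝ) (θ₀ : ℝ) : Prop :=
  ∀ (θ : ℝ) (q : ℕ) (p : ℤ) (t : ℝ), |θ| < θ₀ → 1 ≤ q → (G θ)^[q] t = t + p →
    (¬ ∀ᶠ s in 𝓝 t, s + p ≤ (G θ)^[q] s) ∧ ¬ ∀ᶠ s in 𝓝 t, (G θ)^[q] s ≤ s + p

end Pool.Agent.N813.CX
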