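import Pool.Agent.N813.CX.Stm

/-!
# Project CX, part GAP1: fixed points of monotone families are not close
-/

set_option autoImplicit false

open scoped Topology
open Filter Set

namespace Pool.Agent.N813.CX.GAP1

/-- one half of the argument -/
lemma up (G : ℝ → ℝ → ℝ) (θ₀ θ₁ s t : ℝ) (hc : Continuous fun q : ℝ × ℝ => G q.1 q.2)
    (inc : ∀ θ θ' t, θ ≤ θ' → G θ t + (θ' - θ) ≤ G θ' t)
    (nt : ∀ θ t : ℝ, |θ| < θ₀ → G θ t = t → ¬ ∀ᶠ x in 𝓝 t, x ≤ G θ x)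
    (hst : s < t) (hs : G 0 s = s) (ht : G 0 t = t) (hlow : ∀ x ∈ Icc s t, s ≤ G 0 x)
    (h1 : t - s < θ₁) (h2 : θ₁ < θ₀) : ∀ x ∈ Icc s t, x ≤ G 0 x := by
  have hθ₁ : 0 < θ₁ := by linarith
  have hcθ : ∀ x, Continuous fun θ => G θ x := fun x =>
    hc.comp (continuous_id.prodMk continuous_const)
  have hK : IsCompact ((Icc 0 θ₁ ×ˢ Icc s t) ∩ {q : ℝ × ℝ | G q.1 q.2 ≤ q.2}) :=
    (isCompact_Icc.prod isCompact_Icc).inter_right (isClosed_le hc continuous_snd)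
  obtain ⟨A, hA⟩ : ∃ A : Set ℝ, A = Prod.fst '' ((Icc 0 θ₁ ×ˢ Icc s t) ∩
    {q : ℝ × ℝ | G q.1 q.2 ≤ q.2}) := ⟨_, rfl⟩
  have hAc : IsCompact A := by
    rw [hA]
    exact hK.image continuous_fst
  have hmem : ∀ θ, θ ∈ A ↔ (0 ≤ θ ∧ θ ≤ θ₁) ∧ ∃ x ∈ Icc s t, G θ x ≤ x := by
    intro θ
    rw [hA]
    constructor
    · rintro ⟨⟨a, x⟩, ⟨⟨ha, hx⟩, hle⟩, rfl⟩
      exact ⟨ha, x, hx, hle⟩
    · rintro ⟨ha, x, hx, hle⟩
      exact ⟨(θ, x), ⟨⟨ha, hx⟩, hle⟩, rfl⟩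
  have hA0 : (0 : ℝ) ∈ A := (hmem 0).2 ⟨⟨le_rfl, hθ₁.le⟩, s, left_mem_Icc.2 hst.le, hs.le⟩
  have hc1 : sSup A ∈ A := hAc.sSup_mem ⟨0, hA0⟩
  obtain ⟨c, hcd⟩ : ∃ c, c = sSup A := ⟨_, rfl⟩
  rw [← hcd] at hc1
  have hub : ∀ θ ∈ A, θ ≤ c := fun θ h => by
    rw [hcd]
    exact le_csSup hAc.bddAbove h
  obtain ⟨⟨hc0, hcθ₁⟩, xc, hxc, hle⟩ := (hmem c).1 hc1
  have hclt : c < θ₁ := by
    refine lt_of_le_of_ne hcθ₁ ?_
    rintro rfl
    have h3 := inc 0 c xc hc0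
    have h4 := hlow xc hxc
    have h5 := hxc.2
    linarith
  -- above `c` the maps are above the diagonal
  have habove : ∀ x ∈ Icc s t, x ≤ G c x := by
    intro x hx
    have h3 : Tendsto (fun θ => G θ x) (𝓝[>] c) (𝓝 (G c x)) :=
      ((hcθ x).tendsto c).mono_left nhdsWithin_le_nhds
    refine ge_of_tendsto h3 ?_
    filter_upwards [Ioo_mem_nhdsGT hclt] with θ hθ
    by_contra hcon
    push Not at hcon
    have h4 := hub θ ((hmem θ).2 ⟨⟨hc0.trans hθ.1.le, hθ.2.le⟩, x, hx, hcon.le⟩)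
    exact absurd hθ.1 (not_lt.2 h4)
  have hfix : G c xc = xc := le_antisymm hle (habove xc hxc)
  rcases eq_or_lt_of_le hc0 with h0 | h0
  · rw [← h0] at habove
    exact habove
  · exfalso
    have h3 : xc ≠ s := by
      rintro rfl
      have := inc 0 c xc hc0
      linarith
    have h4 : xc ≠ t := by
      rintro rfl
      have := inc 0 c xc hc0
      linarith
    refine nt c xc (by rw [abs_of_nonneg hc0]; linarith) hfix ?_
    filter_upwards [Ioo_mem_nhds (lt_of_le_of_ne hxc.1 h3.symm) (lt_of_le_of_ne hxc.2 h4)] with x hx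
    exact habove x ⟨hx.1.le, hx.2.le⟩

theorem t : S_GAP1 := by
  intro G θ₀ hθ₀ hF hN s t hst hs ht
  by_contra hcon
  push Not at hcon
  obtain ⟨θ₁, h1, h2⟩ := exists_between hcon
  have nt1 : ∀ θ t : ℝ, |θ| < θ₀ → G θ t = t → ¬ ∀ᶠ x in 𝓝 t, x ≤ G θ x := by
    intro θ t hθ he h
    refine (hN θ 1 0 t hθ le_rfl (by simpa using he)).1 ?_
    filter_upwards [h] with x hx
    simpa using hx
  have nt2 : ∀ θ t : ℝ, |θ| < θ₀ → G θ t = t → ¬ ∀ᶠ x in 𝓝 t, G θ x ≤ x := by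
    intro θ t hθ he h
    refine (hN θ 1 0 t hθ le_rfl (by simpa using he)).2 ?_
    filter_upwards [h] with x hx
    simpa using hx
  have hup := up G θ₀ θ₁ s t hF.cont hF.inc nt1 hst hs ht (fun x hx => by
    rw [← hs]
    rw [hs]
    have := (hF.mono 0).monotone hx.1
    rwa [hs] at this) h1 h2
  have hdown := up (fun θ x => -G (-θ) (-x)) θ₀ θ₁ (-t) (-s)
    (hF.cont.comp (continuous_fst.neg.prodMk continuous_snd.neg)).neg
    (fun θ θ' x h => by
      have := hF.inc (-θ') (-θ) (-x) (by linarith)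
      linarith)
    (fun θ x hθ he h => by
      refine nt2 (-θ) (-x) (by rwa [abs_neg]) (by linarith) ?_
      have h3 : Tendsto (fun u : ℝ => -u) (𝓝 (-x)) (𝓝 x) := by
        have := (continuous_neg (G := ℝ)).tendsto (-x)
        rwa [neg_neg] at this
      filter_upwards [h3.eventually h] with u hu
      rw [neg_neg] at hu
      linarith)
    (by linarith) (by simp [ht]) (by simp [hs])
    (fun x hx => by
      have h3 : -x ≤ t := by linarith [hx.1]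
      have := (hF.mono 0).monotone h3
      rw [ht] at this
      simp only [neg_zero]
      linarith)
    (by linarith) h2
  have hall : ∀ x ∈ Icc s t, G 0 x = x := by
    intro x hx
    refine le_antisymm ?_ (hup x hx)
    have := hdown (-x) ⟨by linarith [hx.2], by linarith [hx.1]⟩
    simp only [neg_zero, neg_neg] at this
    linarith
  obtain ⟨m, hm1, hm2⟩ := exists_between hst
  refine nt1 0 m (by rw [abs_zero]; exact hθ₀) (hall m ⟨hm1.le, hm2.le⟩) ?_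
  filter_upwards [Ioo_mem_nhds hm1 hm2] with x hx
  exact hup x ⟨hx.1.le, hx.2.le⟩

end Pool.Agent.N813.CX.GAP1
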