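import Pool.Agent.N813.CX.Stm

/-!
# CX/LIFT: the lifts of the fibre return maps
-/

set_option autoImplicit false

open scoped Manifold ContDiff Topology
open Filter Set Metric

universe u v

namespace Pool.Agent.N813.CX.LIFT

open Pool.Agent.H718R2.G Pool.Agent.W564.SC Pool.Agent.TH80.OMS Pool.Agent.TH290.CL
  Pool.Agent.N813.OF

noncomputable section

/-- the lift of the `i`-th iterate -/
def L {N : Type u} (F : N → N) (a : N → ℝ → ℝ) (x : N) : ℕ → ℝ → ℝ → ℝ
  | 0, _, t => t
  | i + 1, θ, t => θ + a (F^[i] x) (L F a x i θ t)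

section

variable {N : Type u} [TopologicalSpace N] {F : N → N} {ψ : ℝ → N → N} {a : N → ℝ → ℝ}

theorem L_cont (hF : TopExt F ψ a) (x : N) (i : ℕ) :
    Continuous fun q : ℝ × ℝ => L F a x i q.1 q.2 := by
  induction i with
  | zero => exact continuous_snd
  | succ i ih => exact continuous_fst.add ((hF.acont _).comp ih)

theorem L_mono (hF : TopExt F ψ a) (x : N) (i : ℕ) (θ : ℝ) : StrictMono (L F a x i θ) := by
  induction i with
  | zero => exact fun s t h => h
  | succ i ih =>
    intro s t h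
    have := hF.amono (F^[i] x) (ih h)
    show θ + a (F^[i] x) (L F a x i θ s) < θ + a (F^[i] x) (L F a x i θ t)
    linarith

theorem L_one (hF : TopExt F ψ a) (x : N) (i : ℕ) (θ t : ℝ) :
    L F a x i θ (t + 1) = L F a x i θ t + 1 := by
  induction i with
  | zero => rfl
  | succ i ih =>
    show θ + a (F^[i] x) (L F a x i θ (t + 1)) = θ + a (F^[i] x) (L F a x i θ t) + 1
    rw [ih, hF.aone]
    ring

theorem L_inc0 (hF : TopExt F ψ a) (x : N) (i : ℕ) {θ θ' : ℝ} (t : ℝ) (h : θ ≤ θ') :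
    L F a x i θ t ≤ L F a x i θ' t := by
  induction i with
  | zero => exact le_rfl
  | succ i ih =>
    show θ + a (F^[i] x) (L F a x i θ t) ≤ θ' + a (F^[i] x) (L F a x i θ' t)
    have := (hF.amono (F^[i] x)).monotone ih
    linarith

theorem L_inc (hF : TopExt F ψ a) (x : N) {i : ℕ} (hi : 1 ≤ i) {θ θ' : ℝ} (t : ℝ) (h : θ ≤ θ') :
    L F a x i θ t + (θ' - θ) ≤ L F a x i θ' t := by
  obtain ⟨j, rfl⟩ : ∃ j, i = j + 1 := ⟨i - 1, by omega⟩
  show θ + a (F^[j] x) (L F a x j θ t) + (θ' - θ) ≤ θ' + a (F^[j] x) (L F a x j θ' t)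
  have := (hF.amono (F^[j] x)).monotone (L_inc0 hF x j t h)
  linarith

theorem L_zero (hF : TopExt F ψ a) (x : N) (i : ℕ) : L F a x i 0 0 = 0 := by
  induction i with
  | zero => rfl
  | succ i ih =>
    show 0 + a (F^[i] x) (L F a x i 0 0) = 0
    rw [ih, hF.azero, add_zero]

theorem iter_L (hF : TopExt F ψ a) {H : N → N} {θ : ℝ} (hH : ∀ y, H y = ψ θ (F y)) (x : N)
    (i : ℕ) (t : ℝ) : H^[i] (ψ t x) = ψ (L F a x i θ t) (F^[i] x) := by
  induction i with
  | zero => rfl
  | succ i ih =>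
    rw [Function.iterate_succ_apply', ih, hH, hF.ext, ← hF.add, Function.iterate_succ_apply']
    rfl

omit [TopologicalSpace N] in
theorem iter_G {H : N → N} {g : ℝ → ℝ} {x : N} {m : ℕ} (h : ∀ t, H^[m] (ψ t x) = ψ (g t) x)
    (q : ℕ) (s : ℝ) : H^[m * q] (ψ s x) = ψ (g^[q] s) x := by
  rw [Function.iterate_mul]
  induction q with
  | zero => rfl
  | succ q ih => rw [Function.iterate_succ_apply', ih, h, Function.iterate_succ_apply']

theorem int_free (hF : TopExt F ψ a) (x : N) (w : ℝ) (p : ℤ) : ψ (w - p) x = ψ w x := by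
  rw [sub_eq_add_neg, hF.add, (hF.free x (-(p : ℝ))).2 ⟨-p, by push_cast; ring⟩]

theorem half_free (hF : TopExt F ψ a) (y : N) : ψ (1 / 2) y ≠ y := by
  intro h
  obtain ⟨j, hj⟩ := (hF.free y (1 / 2)).1 h
  have h2 : (2 * j : ℤ) = 1 := by
    have : (2 * (j : ℝ)) = 1 := by rw [← hj]; norm_num
    exact_mod_cast this
  omega

end

/-- LIFT -/
theorem t (hT : S_TAN.{u}) : S_LIFT.{u} := by
  intro n N _ _ _ _ _ r hr H ψ a θ₀ hflow hF hH hθ₀ hhyp x m c hm hx
  obtain ⟨G, hG⟩ : ∃ G : ℝ → ℝ → ℝ, G = fun θ t => L (H 0) a x m θ t + c := ⟨_, rfl⟩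
  have hFam : Fam1 G := by
    rw [hG]
    refine ⟨(L_cont hF x m).add continuous_const, fun θ s t h => ?_, fun θ t => ?_,
      fun θ θ' t h => ?_⟩
    · have := L_mono hF x m θ h
      show L (H 0) a x m θ s + c < L (H 0) a x m θ t + c
      linarith
    · show L (H 0) a x m θ (t + 1) + c = L (H 0) a x m θ t + c + 1
      rw [L_one hF]
      ring
    · have := L_inc hF x hm t h
      show L (H 0) a x m θ t + c + (θ' - θ) ≤ L (H 0) a x m θ' t + c
      linarith
  have hret : ∀ θ t, (H θ)^[m] (ψ t x) = ψ (G θ t) x := by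
    intro θ t
    rw [iter_L hF (hH θ) x m t, hx, ← hF.add, hG]
  refine ⟨G, hFam, ?_, ?_, hret⟩
  · intro θ q p t hθ hq hper
    have key : ¬ ((∀ᶠ s in 𝓝 t, s + p ≤ (G θ)^[q] s) ∨ ∀ᶠ s in 𝓝 t, (G θ)^[q] s ≤ s + p) := by
      intro hcase
      have hGc : Continuous (G θ) := hFam.cont.comp (Continuous.prodMk_right θ)
      have hh : Continuous fun s : ℝ => (G θ)^[q] (t + s) - t - p :=
        (((hGc.iterate q).comp (continuous_const.add continuous_id)).sub continuous_const).sub
          continuous_const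
      have h0 : (G θ)^[q] (t + 0) - t - p = 0 := by
        rw [add_zero, hper]
        ring
      have hre : ∀ s : ℝ, (H θ)^[m * q] (ψ s (ψ t x)) =
          ψ ((G θ)^[q] (t + s) - t - p) (ψ t x) := by
        intro s
        rw [← hF.add, iter_G (hret θ) q, ← hF.add, add_comm s t]
        have e : (G θ)^[q] (t + s) - t - p + t = (G θ)^[q] (t + s) - p := by ring
        rw [e, int_free hF]
      have hmq : 1 ≤ m * q := Nat.mul_pos hm hq
      have hpy : (H θ)^[m * q] (ψ t x) = ψ t x := by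
        have h1 := hre 0
        rw [h0, hF.zero] at h1
        exact h1
      have htd : Tendsto (fun s : ℝ => t + s) (𝓝 0) (𝓝 t) := by
        have h1 : Continuous fun s : ℝ => t + s := continuous_const.add continuous_id
        have h2 := h1.tendsto 0
        rw [add_zero] at h2
        exact h2
      have hcase' : (∀ᶠ s in 𝓝 (0 : ℝ), s ≤ (G θ)^[q] (t + s) - t - p) ∨
          ∀ᶠ s in 𝓝 (0 : ℝ), (G θ)^[q] (t + s) - t - p ≤ s := by
        rcases hcase with h | h
        · left
          filter_upwards [htd.eventually h] with s hs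
          linarith
        · right
          filter_upwards [htd.eventually h] with s hs
          linarith
      have hχ : chartAt (V n) (ψ t x) ∈ IsManifold.maximalAtlas (𝓡 n) ∞ N :=
        IsManifold.chart_mem_maximalAtlas _
      have hys := mem_chart_source (V n) (ψ t x)
      obtain ⟨D, hD, hE⟩ := hT n N r hr (H θ) ψ hflow (ψ t x) (m * q)
        (fun s : ℝ => (G θ)^[q] (t + s) - t - p) hmq ⟨1 / 2, half_free hF _⟩ hh h0
        (Eventually.of_forall hre) hcase' _ hχ hys
      exact hhyp θ hθ (m * q) (ψ t x) hmq hpy _ hχ hys D hD 1 hE norm_one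
    exact ⟨fun h => key (Or.inl h), fun h => key (Or.inr h)⟩
  · rw [hG]
    show L (H 0) a x m 0 0 + c = c
    rw [L_zero hF, zero_add]

end

end Pool.Agent.N813.CX.LIFT
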