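import Pool.Agent.N813.CX.Stm

/-!
# Mode locking: a periodic point exists
-/

set_option autoImplicit false

namespace Pool.Agent.N813.CX.LOCK1

open Filter Set Topology

/-- the iterates depend continuously on the parameter and on the point -/
theorem it_cont {G : ℝ → ℝ → ℝ} (hG : Fam1 G) (q : ℕ) :
    Continuous fun z : ℝ × ℝ => (G z.1)^[q] z.2 := by
  induction q with
  | zero => exact continuous_snd
  | succ q ih =>
    have h1 : (fun z : ℝ × ℝ => (G z.1)^[q + 1] z.2) = fun z : ℝ × ℝ =>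
        G z.1 ((G z.1)^[q] z.2) := by
      funext z
      rw [Function.iterate_succ_apply']
    rw [h1]
    exact hG.cont.comp (continuous_fst.prodMk ih)

theorem it_int {G : ℝ → ℝ → ℝ} (hG : Fam1 G) (θ : ℝ) (q : ℕ) (t : ℝ) (j : ℤ) :
    (G θ)^[q] (t + j) = (G θ)^[q] t + j := by
  let g : CircleDeg1Lift := ⟨⟨G θ, (hG.mono θ).monotone⟩, hG.one θ⟩
  have h1 := (g ^ q).map_add_int t j
  rw [CircleDeg1Lift.coe_pow] at h1
  exact h1

theorem it_le {G : ℝ → ℝ → ℝ} (hG : Fam1 G) {θ θ' : ℝ} (h : θ ≤ θ') (q : ℕ) (s : ℝ) :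
    (G θ)^[q] s ≤ (G θ')^[q] s ∧ (G θ)^[q + 1] s + (θ' - θ) ≤ (G θ')^[q + 1] s := by
  have key : (G θ)^[q] s ≤ (G θ')^[q] s := by
    induction q with
    | zero => exact le_rfl
    | succ q ih =>
      rw [Function.iterate_succ_apply', Function.iterate_succ_apply']
      have h1 := (hG.mono θ).monotone ih
      have h2 := hG.inc θ θ' ((G θ')^[q] s) h
      linarith
  refine ⟨key, ?_⟩
  rw [Function.iterate_succ_apply', Function.iterate_succ_apply']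
  have h1 := (hG.mono θ).monotone key
  have h2 := hG.inc θ θ' ((G θ')^[q] s) h
  linarith

/-- no one-sided locking -/
theorem side {G : ℝ → ℝ → ℝ} {θ₀ : ℝ} (hG : Fam1 G) (hN : NoTan G θ₀) {q : ℕ} (hq : 1 ≤ q)
    {p : ℤ} (hlt : ∀ s, (G 0)^[q] s < s + p) {θ₁ : ℝ} (h0 : 0 ≤ θ₁) (h1 : θ₁ < θ₀) {x : ℝ}
    (hx : x + p ≤ (G θ₁)^[q] x) : False := by
  obtain ⟨K, hK⟩ : ∃ K : Set (ℝ × ℝ), K = (Icc 0 θ₁ ×ˢ Icc (0 : ℝ) 1) ∩
      {z | z.2 + p ≤ (G z.1)^[q] z.2} := ⟨_, rfl⟩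
  have hKc : IsCompact K := by
    rw [hK]
    refine (isCompact_Icc.prod isCompact_Icc).inter_right ?_
    exact isClosed_le (by fun_prop) (it_cont hG q)
  have hKn : K.Nonempty := by
    refine ⟨(θ₁, Int.fract x), ?_⟩
    rw [hK]
    refine ⟨⟨⟨h0, le_rfl⟩, ⟨Int.fract_nonneg x, (Int.fract_lt_one x).le⟩⟩, ?_⟩
    have h2 : x = Int.fract x + ⌊x⌋ := (Int.fract_add_floor x).symm
    have h3 := it_int hG θ₁ q (Int.fract x) ⌊x⌋
    rw [← h2] at h3
    rw [h3] at hx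
    change Int.fract x + p ≤ (G θ₁)^[q] (Int.fract x)
    linarith
  obtain ⟨⟨θc, sc⟩, hcK, hmin⟩ := hKc.exists_isMinOn hKn continuous_fst.continuousOn
  have hc : ((0 ≤ θc ∧ θc ≤ θ₁) ∧ (0 ≤ sc ∧ sc ≤ 1)) ∧ sc + p ≤ (G θc)^[q] sc := by
    rw [hK] at hcK
    exact hcK
  have hθc : 0 < θc := by
    rcases hc.1.1.1.lt_or_eq with h | h
    · exact h
    · exfalso
      have h2 := hlt sc
      rw [h] at h2
      linarith [hc.2]
  have hbelow : ∀ θ, 0 ≤ θ → θ < θc → ∀ s, (G θ)^[q] s < s + p := by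
    intro θ hθ0 hθ s
    by_contra hcon
    push Not at hcon
    have h2 : s = Int.fract s + ⌊s⌋ := (Int.fract_add_floor s).symm
    have h3 := it_int hG θ q (Int.fract s) ⌊s⌋
    rw [← h2] at h3
    rw [h3] at hcon
    have h4 : (θ, Int.fract s) ∈ K := by
      rw [hK]
      refine ⟨⟨⟨hθ0, hθ.le.trans hc.1.1.2⟩, ⟨Int.fract_nonneg s, (Int.fract_lt_one s).le⟩⟩, ?_⟩
      change Int.fract s + p ≤ (G θ)^[q] (Int.fract s)
      linarith
    have h5 : θc ≤ θ := hmin h4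
    linarith
  have hle : ∀ s, (G θc)^[q] s ≤ s + p := by
    intro s
    have h2 : ContinuousAt (fun θ => (G θ)^[q] s) θc :=
      ((it_cont hG q).comp (continuous_id.prodMk continuous_const)).continuousAt
    have h3 : Tendsto (fun θ => (G θ)^[q] s) (𝓝[<] θc) (𝓝 ((G θc)^[q] s)) :=
      h2.mono_left nhdsWithin_le_nhds
    refine le_of_tendsto h3 ?_
    have h4 : Ioo 0 θc ∈ 𝓝[<] θc := Ioo_mem_nhdsLT hθc
    filter_upwards [h4] with θ hθ
    exact (hbelow θ hθ.1.le hθ.2 s).le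
  have heq : (G θc)^[q] sc = sc + p := le_antisymm (hle sc) hc.2
  have habs : |θc| < θ₀ := by
    rw [abs_of_pos hθc]
    linarith [hc.1.1.2]
  exact (hN θc q p sc habs hq heq).2 (Eventually.of_forall hle)

/-- the sign of the displacement is constant -/
theorem sign_lt {G : ℝ → ℝ → ℝ} (hG : Fam1 G) {q : ℕ} {p : ℤ}
    (hno : ∀ s, (G 0)^[q] s ≠ s + p) {x : ℝ} (hx : (G 0)^[q] x < x + p) (s : ℝ) :
    (G 0)^[q] s < s + p := by
  by_contra hcon
  push Not at hcon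
  have hf : Continuous fun s => (G 0)^[q] s - (s + p) :=
    ((it_cont hG q).comp (continuous_const.prodMk continuous_id)).sub (by fun_prop)
  obtain ⟨y, hy⟩ := mem_range_of_exists_le_of_exists_ge (c := 0) hf
    ⟨x, show (G 0)^[q] x - (x + p) ≤ 0 by linarith⟩
    ⟨s, show 0 ≤ (G 0)^[q] s - (s + p) by linarith⟩
  exact hno y (sub_eq_zero.1 hy)

/-- the reflected family -/
def Rf (G : ℝ → ℝ → ℝ) : ℝ → ℝ → ℝ := fun θ t => -G (-θ) (-t)

theorem Rf_fam {G : ℝ → ℝ → ℝ} (hG : Fam1 G) : Fam1 (Rf G) where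
  cont := (hG.cont.comp (continuous_fst.neg.prodMk continuous_snd.neg)).neg
  mono θ s t hst := by
    have h1 := hG.mono (-θ) (neg_lt_neg hst)
    change -G (-θ) (-s) < -G (-θ) (-t)
    linarith
  one θ t := by
    have h1 := hG.one (-θ) (-(t + 1))
    have h2 : -(t + 1) + 1 = -t := by ring
    rw [h2] at h1
    change -G (-θ) (-(t + 1)) = -G (-θ) (-t) + 1
    linarith
  inc θ θ' t h := by
    have h1 := hG.inc (-θ') (-θ) (-t) (neg_le_neg h)
    change -G (-θ) (-t) + (θ' - θ) ≤ -G (-θ') (-t)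
    linarith

theorem Rf_it (G : ℝ → ℝ → ℝ) (θ : ℝ) (q : ℕ) (t : ℝ) :
    (Rf G θ)^[q] t = -(G (-θ))^[q] (-t) := by
  induction q generalizing t with
  | zero =>
    change t = - -t
    ring
  | succ q ih =>
    rw [Function.iterate_succ_apply, ih, Function.iterate_succ_apply]
    change -(G (-θ))^[q] (- -G (-θ) (-t)) = _
    rw [neg_neg]

theorem Rf_tan {G : ℝ → ℝ → ℝ} {θ₀ : ℝ} (hN : NoTan G θ₀) : NoTan (Rf G) θ₀ := by
  intro θ q p t hθ hq heq
  rw [Rf_it] at heq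
  have h1 := hN (-θ) q (-p) (-t) (by rwa [abs_neg]) hq (by
    push_cast
    linarith)
  have hneg : Tendsto (fun s : ℝ => -s) (𝓝 (-t)) (𝓝 t) := by
    have := (continuous_neg (G := ℝ)).tendsto (-t)
    rwa [neg_neg] at this
  refine ⟨fun h => h1.2 ?_, fun h => h1.1 ?_⟩
  · have h2 := hneg.eventually h
    refine h2.mono fun s hs => ?_
    rw [Rf_it, neg_neg] at hs
    push_cast
    linarith
  · have h2 := hneg.eventually h
    refine h2.mono fun s hs => ?_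
    rw [Rf_it, neg_neg] at hs
    push_cast
    linarith

/-- close returns -/
theorem returns (y : ℕ → ℝ) {δ : ℝ} (hδ : 0 < δ) :
    ∃ i j : ℕ, i < j ∧ ∃ p : ℤ, |y j - y i - p| < δ := by
  obtain ⟨a, -, φ, hφ, hlim⟩ := isCompact_Icc.tendsto_subseq
    (x := fun k => Int.fract (y k)) (s := Icc (0 : ℝ) 1)
    (fun k => ⟨Int.fract_nonneg _, (Int.fract_lt_one _).le⟩)
  have hC := hlim.cauchySeq
  obtain ⟨N, hN⟩ := Metric.cauchySeq_iff.1 hC δ hδ
  have h1 := hN (N + 1) (by omega) N le_rfl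
  refine ⟨φ N, φ (N + 1), hφ (Nat.lt_succ_self N), ⌊y (φ (N + 1))⌋ - ⌊y (φ N)⌋, ?_⟩
  rw [Real.dist_eq] at h1
  have h2 : y (φ (N + 1)) - y (φ N) - ((⌊y (φ (N + 1))⌋ - ⌊y (φ N)⌋ : ℤ) : ℝ) =
      Int.fract (y (φ (N + 1))) - Int.fract (y (φ N)) := by
    unfold Int.fract
    push_cast
    ring
  rw [h2]
  exact h1

/-- LOCK1 -/
theorem t : S_LOCK1 := by
  intro G θ₀ hθ₀ hG hN
  by_contra hcon
  push Not at hcon
  have hit : ∀ (H : ℝ → ℝ → ℝ), Fam1 H → NoTan H θ₀ → ∀ (q : ℕ) (p : ℤ) (x : ℝ), 1 ≤ q →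
      (∀ s, (H 0)^[q] s ≠ s + p) → (H 0)^[q] x < x + p → x + p - θ₀ / 2 < (H 0)^[q] x →
      False := by
    intro H hH hHN q p x hq hno hx hx'
    have h1 := sign_lt hH hno hx
    obtain ⟨k, rfl⟩ : ∃ k, q = k + 1 := ⟨q - 1, by omega⟩
    have h2 := (it_le hH (show (0 : ℝ) ≤ θ₀ / 2 by linarith) k x).2
    exact side hH hHN hq h1 (show (0 : ℝ) ≤ θ₀ / 2 by linarith) (by linarith) (x := x)
      (by linarith)
  obtain ⟨i, j, hij, p, hp⟩ := returns (fun k => (G 0)^[k] 0) (show (0 : ℝ) < θ₀ / 2 by linarith)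
  obtain ⟨q, hq, rfl⟩ : ∃ q, 1 ≤ q ∧ j = q + i := ⟨j - i, by omega, by omega⟩
  have h1 : (G 0)^[q] ((G 0)^[i] 0) = (G 0)^[q + i] 0 := (Function.iterate_add_apply _ _ _ _).symm
  have h2 : |(G 0)^[q + i] 0 - (G 0)^[i] 0 - p| < θ₀ / 2 := hp
  rw [← h1] at h2
  obtain ⟨h3, h4⟩ := abs_lt.1 h2
  rcases lt_trichotomy ((G 0)^[q] ((G 0)^[i] 0)) ((G 0)^[i] 0 + p) with h5 | h5 | h5
  · exact hit G hG hN q p _ hq (fun s => hcon q p s hq) h5 (by linarith)
  · exact hcon q p _ hq h5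
  · refine hit (Rf G) (Rf_fam hG) (Rf_tan hN) q (-p) (-(G 0)^[i] 0) hq ?_ ?_ ?_
    · intro s hs
      rw [Rf_it, neg_zero] at hs
      apply hcon q p (-s) hq
      push_cast at hs
      linarith
    · rw [Rf_it, neg_zero, neg_neg]
      push_cast
      linarith
    · rw [Rf_it, neg_zero, neg_neg]
      push_cast
      linarith

end Pool.Agent.N813.CX.LOCK1
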