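import Pool.Agent.N813.CX.Stm

/-!
# PERS1: persistence of fixed points (helper820)
-/

set_option autoImplicit false

open scoped Manifold ContDiff Topology
open Filter Set Metric

namespace Pool.Agent.N813.CX.PERS1

open Pool.Agent.N813.CX

theorem t : S_PERS1 := by
  intro G θ₀ hθ₀ hG hN t ht ε hε
  obtain ⟨h1, h2⟩ := hN 0 1 0 t (by simpa using hθ₀) le_rfl (by simpa using ht)
  rw [Filter.not_eventually] at h1 h2
  have hb : ∀ᶠ s in 𝓝 t, |s - t| < ε := by
    have := Metric.ball_mem_nhds t hε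
    filter_upwards [this] with s hs
    rwa [Metric.mem_ball, Real.dist_eq] at hs
  obtain ⟨s₁, hs₁, hd₁⟩ := (h1.and_eventually hb).exists
  obtain ⟨s₂, hs₂, hd₂⟩ := (h2.and_eventually hb).exists
  simp only [Function.iterate_one, Int.cast_zero, add_zero, not_le] at hs₁ hs₂
  have hc : ∀ s : ℝ, Continuous fun θ : ℝ => G θ s := fun s =>
    hG.cont.comp (continuous_id.prodMk continuous_const)
  have hc' : ∀ θ : ℝ, Continuous fun s : ℝ => G θ s - s := fun θ =>
    (hG.cont.comp (continuous_const.prodMk continuous_id)).sub continuous_id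
  have e1 : ∀ᶠ θ in 𝓝 (0 : ℝ), G θ s₁ < s₁ :=
    (hc s₁).continuousAt.eventually_lt continuousAt_const hs₁
  have e2 : ∀ᶠ θ in 𝓝 (0 : ℝ), s₂ < G θ s₂ :=
    continuousAt_const.eventually_lt (hc s₂).continuousAt hs₂
  obtain ⟨κ, hκ, hκ'⟩ := Metric.eventually_nhds_iff.1 (e1.and e2)
  refine ⟨κ, hκ, fun θ hθ => ?_⟩
  obtain ⟨a1, a2⟩ := hκ' (y := θ) (by rwa [Real.dist_eq, sub_zero])
  have h0 : (0 : ℝ) ∈ Set.uIcc (G θ s₁ - s₁) (G θ s₂ - s₂) := by
    rw [Set.mem_uIcc]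
    left
    constructor <;> linarith
  obtain ⟨s, hs, hs0⟩ := intermediate_value_uIcc (hc' θ).continuousOn h0
  refine ⟨s, ?_, by simpa using sub_eq_zero.1 hs0⟩
  rw [abs_lt] at hd₁ hd₂ ⊢
  rw [Set.mem_uIcc] at hs
  rcases hs with ⟨p, q⟩ | ⟨p, q⟩
  · constructor <;> linarith
  · constructor <;> linarith

end Pool.Agent.N813.CX.PERS1
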