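import Pool.Agent.N813.CX.Stm

/-!
# Project CX, part TAN (helper186 for helper813)
-/

set_option autoImplicit false

open scoped Manifold ContDiff Topology
open Filter Set Metric

universe u v

namespace Pool.Agent.N813.CX.TAN

open Pool.Agent.H718R2.G Pool.Agent.W564.SC Pool.Agent.TH80.OMS Pool.Agent.TH290.CL
  Pool.Agent.N813.OF

/-- derivative of a reparametrisation -/
theorem hasDerivAt_of_comp {f h : ℝ → ℝ} {c : ℝ} (hf : HasDerivAt f 1 0) (hf0 : f 0 = 0)
    (hc : ContinuousAt h 0) (h0 : h 0 = 0) (hfh : HasDerivAt (fun s => f (h s)) c 0) :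
    HasDerivAt h c 0 := by
  rw [hasDerivAt_iff_tendsto_slope] at hfh ⊢
  have hq : ContinuousAt (dslope f 0) 0 := continuousAt_dslope_same.2 hf.differentiableAt
  have hq0 : dslope f 0 0 = 1 := by rw [dslope_same]; exact hf.deriv
  have hqh : Tendsto (fun s => dslope f 0 (h s)) (𝓝[≠] 0) (𝓝 1) := by
    have h1 : Tendsto h (𝓝[≠] 0) (𝓝 0) := by
      have := hc.tendsto
      rw [h0] at this
      exact this.mono_left nhdsWithin_le_nhds
    have h2 := hq.tendsto
    rw [hq0] at h2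
    exact h2.comp h1
  have hd := hfh.div hqh one_ne_zero
  rw [div_one] at hd
  refine hd.congr' ?_
  filter_upwards [hqh.eventually_ne one_ne_zero] with s hs
  have e1 : f (h s) = h s * dslope f 0 (h s) := by
    have := sub_smul_dslope f 0 (h s)
    rw [sub_zero, hf0, sub_zero, smul_eq_mul] at this
    exact this.symm
  show slope (fun s => f (h s)) 0 s / dslope f 0 (h s) = slope h 0 s
  rw [slope_def_field, slope_def_field, e1]
  simp only [h0, hf0, sub_zero]
  field_simp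

section

variable {n : ℕ} {N : Type u} [TopologicalSpace N] [ChartedSpace (V n) N]
  [IsManifold (𝓡 n) ∞ N]

omit [IsManifold (𝓡 n) ∞ N] in
theorem line {ψ : ℝ → N → N} (hψ : IsFlow n N ψ) (y : N) :
    ContMDiff 𝓘(ℝ, ℝ) (𝓡 n) ∞ (fun t : ℝ => ψ t y) :=
  hψ.smooth.comp (contMDiff_id.prodMk contMDiff_const)

omit [IsManifold (𝓡 n) ∞ N] in
theorem time {ψ : ℝ → N → N} (hψ : IsFlow n N ψ) (t : ℝ) :
    ContMDiff (𝓡 n) (𝓡 n) ∞ (ψ t) :=
  hψ.smooth.comp (contMDiff_const.prodMk contMDiff_id)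

theorem line_chart {ψ : ℝ → N → N} (hψ : IsFlow n N ψ) (y : N)
    {φ : OpenPartialHomeomorph N (V n)} (hφ : φ ∈ IsManifold.maximalAtlas (𝓡 n) ∞ N) {t : ℝ}
    (ht : ψ t y ∈ φ.source) : DifferentiableAt ℝ (fun s => φ (ψ s y)) t := by
  have h : ContDiffAt ℝ 1 (φ ∘ (fun s => ψ s y)) t := by
    rw [← contMDiffAt_iff_contDiffAt]
    have m2 : ContMDiffAt 𝓘(ℝ, ℝ) (𝓡 n) 1 (fun s : ℝ => ψ s y) t :=
      ((line hψ y).contMDiffAt).of_le (by norm_cast)
    have m3 : ContMDiffAt (𝓡 n) (𝓡 n) 1 φ (ψ t y) :=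
      ((contMDiffOn_of_mem_maximalAtlas hφ).contMDiffAt
        (φ.open_source.mem_nhds ht)).of_le (by norm_cast)
    exact ContMDiffAt.comp (g := φ) (f := fun s : ℝ => ψ s y) t m3 m2
  exact h.differentiableAt (by norm_num)

theorem deriv_zero {ψ : ℝ → N → N} (hψ : IsFlow n N ψ) (y : N)
    {χ : OpenPartialHomeomorph N (V n)} (hχ : χ ∈ IsManifold.maximalAtlas (𝓡 n) ∞ N)
    (hy : y ∈ χ.source) (hX : HasDerivAt (fun s => χ (ψ s y)) 0 0)
    {φ : OpenPartialHomeomorph N (V n)} (hφ : φ ∈ IsManifold.maximalAtlas (𝓡 n) ∞ N) {t : ℝ}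
    (ht : ψ t y ∈ φ.source) : HasDerivAt (fun s => φ (ψ s y)) 0 t := by
  obtain ⟨L, hL⟩ := MULT.exists_DA (r := 1) le_rfl (ψ t) ((time hψ t).of_le (by norm_cast)) hχ hφ hy ht
  have h1 : HasDerivAt (fun s => φ (ψ t (χ.symm (χ (ψ s y))))) (L 0) 0 := by
    have h2 : HasFDerivAt (fun v => φ (ψ t (χ.symm v))) L (χ (ψ 0 y)) := by
      rw [hψ.zero]; exact hL.der
    exact h2.comp_hasDerivAt (0 : ℝ) hX
  rw [map_zero] at h1
  have h3 : HasDerivAt (fun s => φ (ψ (t + s) y)) 0 0 := by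
    refine h1.congr_of_eventuallyEq ?_
    have hc : ContinuousAt (fun s => ψ s y) 0 := (line hψ y).continuous.continuousAt
    have hs : ∀ᶠ s in 𝓝 (0 : ℝ), ψ s y ∈ χ.source := by
      apply hc.eventually_mem
      rw [hψ.zero]
      exact χ.open_source.mem_nhds hy
    filter_upwards [hs] with s hs
    rw [χ.left_inv hs, hψ.add]
  have h4 : HasDerivAt (fun s => φ (ψ (t + (s - t)) y)) 0 t := by
    apply HasDerivAt.comp_sub_const (f := fun s => φ (ψ (t + s) y)) t t
    rw [sub_self]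
    exact h3
  simpa using h4

theorem const_of_deriv_zero [T2Space N] {ψ : ℝ → N → N} (hψ : IsFlow n N ψ) (y : N)
    {χ : OpenPartialHomeomorph N (V n)} (hχ : χ ∈ IsManifold.maximalAtlas (𝓡 n) ∞ N)
    (hy : y ∈ χ.source) (hX : HasDerivAt (fun s => χ (ψ s y)) 0 0) (t : ℝ) : ψ t y = y := by
  have hlc : IsLocallyConstant (fun t : ℝ => ψ t y) := by
    rw [IsLocallyConstant.iff_eventually_eq]
    intro t₀
    set φ := chartAt (V n) (ψ t₀ y) with hφ
    have hφm : φ ∈ IsManifold.maximalAtlas (𝓡 n) ∞ N := IsManifold.chart_mem_maximalAtlas _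
    have hc : ContinuousAt (fun s => ψ s y) t₀ := (line hψ y).continuous.continuousAt
    have hs : ∀ᶠ s in 𝓝 t₀, ψ s y ∈ φ.source :=
      hc.eventually_mem (φ.open_source.mem_nhds (mem_chart_source _ _))
    obtain ⟨ε, hε, hball⟩ := Metric.eventually_nhds_iff_ball.1 hs
    refine Metric.eventually_nhds_iff_ball.2 ⟨ε, hε, fun s hs => ?_⟩
    have hz : ∀ u ∈ ball t₀ ε, HasDerivAt (fun s => φ (ψ s y)) 0 u := fun u hu =>
      deriv_zero hψ y hχ hy hX hφm (hball u hu)
    have hconst : φ (ψ s y) = φ (ψ t₀ y) :=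
      IsOpen.is_const_of_deriv_eq_zero (f := fun s => φ (ψ s y)) isOpen_ball
        (convex_ball t₀ ε).isPreconnected
        (fun u hu => (hz u hu).differentiableAt.differentiableWithinAt)
        (fun u hu => (hz u hu).deriv) hs (mem_ball_self hε)
    exact φ.injOn (hball s hs) (mem_chart_source _ _) hconst
  have := hlc.apply_eq_of_preconnectedSpace t 0
  simpa only [hψ.zero] using this

end

theorem eig_one {n : ℕ} {D : V n →L[ℝ] V n} {X : V n} (hX : X ≠ 0) (h : D X = X) : Eig D 1 := by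
  have h1 : Module.End.HasEigenvalue (D : V n →ₗ[ℝ] V n) 1 := by
    apply Module.End.hasEigenvalue_of_hasEigenvector (x := X)
    refine ⟨?_, hX⟩
    rw [Module.End.mem_eigenspace_iff]
    show D X = (1 : ℝ) • X
    rw [h, one_smul]
  have h2 := (Module.End.hasEigenvalue_iff_isRoot_charpoly _ _).1 h1
  have h3 := h2.map (f := algebraMap ℝ ℂ)
  rw [map_one] at h3
  exact h3

theorem t : S_TAN.{u} := by
  intro n N _ _ _ _ _ r hr G ψ hψ y m h hm hne hc h0 hev hmon χ hχ hy
  have hfix : G^[m] y = y := by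
    have := hev.self_of_nhds
    rw [hψ.zero, h0, hψ.zero] at this
    exact this
  have hit : ContMDiff (𝓡 n) (𝓡 n) r (G^[m]) := by
    clear hm hev hfix
    induction m with
    | zero => exact contMDiff_id
    | succ m ih =>
      rw [Function.iterate_succ']
      exact G.contMDiff.comp ih
  obtain ⟨D, hD⟩ := MULT.exists_DA hr (G^[m]) hit hχ hχ hy (by rw [hfix]; exact hy)
  refine ⟨D, hD.der, ?_⟩
  have hdiff : DifferentiableAt ℝ (fun s => χ (ψ s y)) 0 :=
    line_chart hψ y hχ (by rw [hψ.zero]; exact hy)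
  set γ : ℝ → V n := fun s => χ (ψ s y) with hγ
  set X : V n := deriv γ 0 with hXd
  have hγX : HasDerivAt γ X 0 := hdiff.hasDerivAt
  have hX0 : X ≠ 0 := by
    intro hX
    rw [hX] at hγX
    obtain ⟨t, ht⟩ := hne
    exact ht (const_of_deriv_zero hψ y hχ hy hγX t)
  -- derivative of `γ ∘ h`
  have hγh : HasDerivAt (fun s => γ (h s)) (D X) 0 := by
    have h2 : HasFDerivAt (fun v => χ (G^[m] (χ.symm v))) D (γ 0) := by
      show HasFDerivAt (fun v => χ (G^[m] (χ.symm v))) D (χ (ψ 0 y))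
      rw [hψ.zero]; exact hD.der
    have h3 := h2.comp_hasDerivAt (0 : ℝ) hγX
    refine h3.congr_of_eventuallyEq ?_
    have hcψ : ContinuousAt (fun s => ψ s y) 0 := (line hψ y).continuous.continuousAt
    have hs : ∀ᶠ s in 𝓝 (0 : ℝ), ψ s y ∈ χ.source := by
      apply hcψ.eventually_mem
      rw [hψ.zero]
      exact χ.open_source.mem_nhds hy
    filter_upwards [hs, hev] with s hs hs2
    show χ (ψ (h s) y) = χ (G^[m] (χ.symm (χ (ψ s y))))
    rw [χ.left_inv hs, hs2]
  -- a linear functional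
  set ℓ : V n →L[ℝ] ℝ := (‖X‖ ^ 2)⁻¹ • innerSL ℝ X with hℓ
  have hℓX : ℓ X = 1 := by
    have hn : ‖X‖ ≠ 0 := norm_ne_zero_iff.2 hX0
    show (‖X‖ ^ 2)⁻¹ * inner ℝ X X = 1
    rw [real_inner_self_eq_norm_sq]
    field_simp
  set f : ℝ → ℝ := fun u => ℓ (γ u - γ 0) with hf
  have hf1 : HasDerivAt f 1 0 := by
    have h5 := ℓ.hasFDerivAt.comp_hasDerivAt (0 : ℝ) (hγX.sub_const (γ 0))
    rw [hℓX] at h5
    exact h5
  have hf0 : f 0 = 0 := by
    show ℓ (γ 0 - γ 0) = 0
    rw [sub_self, map_zero]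
  have hfh : HasDerivAt (fun s => f (h s)) (ℓ (D X)) 0 :=
    ℓ.hasFDerivAt.comp_hasDerivAt (0 : ℝ) (hγh.sub_const (γ 0))
  have hh := hasDerivAt_of_comp hf1 hf0 hc.continuousAt h0 hfh
  have hl1 : ℓ (D X) = 1 := by
    have h6 : HasDerivAt (fun s => h s - s) (ℓ (D X) - 1) 0 := hh.sub (hasDerivAt_id 0)
    rcases hmon with hmon | hmon
    · have hmin : IsLocalMin (fun s => h s - s) 0 := by
        filter_upwards [hmon] with s hs
        simp only [h0, sub_zero]
        linarith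
      have := hmin.hasDerivAt_eq_zero h6
      linarith
    · have hmax : IsLocalMax (fun s => h s - s) 0 := by
        filter_upwards [hmon] with s hs
        simp only [h0, sub_zero]
        linarith
      have := hmax.hasDerivAt_eq_zero h6
      linarith
  rw [hl1] at hh
  have hDX : D X = X := by
    have h7 : HasDerivAt γ X (h 0) := by rw [h0]; exact hγX
    have h8 := HasDerivAt.scomp (0 : ℝ) h7 hh
    rw [one_smul] at h8
    exact hγh.unique h8
  exact eig_one hX0 hDX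

end Pool.Agent.N813.CX.TAN
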