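import Pool.Agent.N813.CX.GAP1
import Pool.Agent.N813.CX.LOCK1
import Pool.Agent.N813.CX.PERS1
import Pool.Agent.N813.CX.TAN
import Pool.Agent.N813.CX.LIFT
import Pool.Agent.N813.CX.CLOS
import Pool.Agent.N813.CX.BAI
import Pool.Agent.N813.CX.CONJ
import Pool.Agent.N813.OF.Main
import Pool.Agent.N102.UF.Main

/-!
# Project CX: main theorem
-/

set_option autoImplicit false

open scoped Manifold ContDiff Topology
open Filter Set Metric

universe u v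

namespace Pool.Agent.N813.CX

open Pool.Agent.H718R2.G Pool.Agent.W564.SC Pool.Agent.TH80.OMS Pool.Agent.TH290.CL
  Pool.Agent.N813.OF

/-- the hyperbolicity of all periodic points -/
def HypPer (n : ℕ) {N : Type u} [TopologicalSpace N] [ChartedSpace (V n) N] (G : N → N) : Prop :=
  ∀ (m : ℕ) (p : N), 1 ≤ m → G^[m] p = p → ∀ χ ∈ IsManifold.maximalAtlas (𝓡 n) ∞ N,
    p ∈ χ.source → ∀ D : V n →L[ℝ] V n, DerAt G χ m p D → ∀ μ : ℂ, Eig D μ → ‖μ‖ ≠ 1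

/-- the family of the rotations of the fibres -/
structure RotFam (n : ℕ) (N : Type u) [TopologicalSpace N] [ChartedSpace (V n) N] (r : ℕ∞)
    (F : DiffM n N r) (ψ : ℝ → N → N) (a : N → ℝ → ℝ) (H : ℝ → DiffM n N r) (θ₀ : ℝ) : Prop where
  flow : IsFlow n N ψ
  top : TopExt F ψ a
  pos : 0 < θ₀
  lt : θ₀ < 1
  eq : ∀ θ y, H θ y = ψ θ (F y)
  hyp : ∀ θ : ℝ, |θ| < θ₀ → HypPer n (H θ)
  conj : ∀ θ : ℝ, |θ| < θ₀ → OmegaConj F (H θ)

section

variable {n : ℕ} {N : Type u} [TopologicalSpace N] [T2Space N] [CompactSpace N]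
  [ChartedSpace (V n) N] [IsManifold (𝓡 n) ∞ N] {r : ℕ∞}

theorem exists_rotFam (hr : 1 ≤ r) (F : DiffM n N r) (hF : OmegaStable n N r F) (ψ : ℝ → N → N)
    (h : CircleExt n N F ψ) :
    ∃ (a : N → ℝ → ℝ) (H : ℝ → DiffM n N r) (θ₀ : ℝ), RotFam n N r F ψ a H θ₀ := by
  choose a ha using h.fibre
  obtain ⟨U, hU, hFU, hyp⟩ := HYP.t n N r hr F hF
  obtain ⟨U', hU', hFU', hconj⟩ := hF
  obtain ⟨H, hH, hHe, hH0⟩ := Pool.Agent.N102.UF.flow_fam h.flow r F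
  have hex : ∃ κ : ℝ, 0 < κ ∧ ∀ s : ℝ, |s| < κ → H s ∈ U ∧ H s ∈ U' := by
    rcases isEmpty_or_nonempty N with he | ⟨⟨z⟩⟩
    · refine ⟨1, one_pos, fun s _ => ?_⟩
      have e : H s = F := by
        ext y
        exact isEmptyElim y
      rw [e]
      exact ⟨hFU, hFU'⟩
    · obtain ⟨κ, hκ, h1⟩ := Pool.Agent.TH80.CLX.fam_mem r hr H hH z U hU (by rw [hH0]; exact hFU)
      obtain ⟨κ', hκ', h2⟩ :=
        Pool.Agent.TH80.CLX.fam_mem r hr H hH z U' hU' (by rw [hH0]; exact hFU')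
      exact ⟨min κ κ', lt_min hκ hκ', fun s hs => ⟨h1 s (lt_of_lt_of_le hs (min_le_left _ _)),
        h2 s (lt_of_lt_of_le hs (min_le_right _ _))⟩⟩
  obtain ⟨κ, hκ, hk⟩ := hex
  refine ⟨a, H, min κ (1 / 2), ⟨h.flow, ?_, lt_min hκ (by norm_num),
    lt_of_le_of_lt (min_le_right _ _) (by norm_num), hHe, ?_, ?_⟩⟩
  · exact ⟨h.flow.smooth.continuous, h.flow.zero, h.flow.add, h.free, fun y t => (ha y).2.2.2.2 t,
      fun y => (ha y).1, fun y => (ha y).2.1, fun y t => (ha y).2.2.2.1 t, fun y => (ha y).2.2.1⟩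
  · intro θ hθ m p hm hp χ hχ hpχ D hD μ hμ
    exact hyp (H θ) (hk θ (lt_of_lt_of_le hθ (min_le_left _ _))).1 m p hm hp χ hχ hpχ D hD μ hμ
  · intro θ hθ
    exact hconj _ (hk θ (lt_of_lt_of_le hθ (min_le_left _ _))).2

/-- rotations of the fibres are extensions -/
theorem topExt_rot {F : N → N} {ψ : ℝ → N → N} {a : N → ℝ → ℝ} (h : TopExt F ψ a) (θ : ℝ)
    {G : N → N} (hG : ∀ y, G y = ψ θ (F y)) : TopExt G ψ a :=
  ⟨h.cont, h.zero, h.add, h.free, fun y t => by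
    rw [hG, hG, h.ext, ← h.add, ← h.add, add_comm], h.acont, h.amono, h.aone, h.azero⟩

variable {F : DiffM n N r} {ψ : ℝ → N → N} {a : N → ℝ → ℝ} {H : ℝ → DiffM n N r} {θ₀ : ℝ}

/-- the lifts of the return maps, at the parameter `θ₁` -/
theorem lift_at (hr : 1 ≤ r) (h : RotFam n N r F ψ a H θ₀) (θ₁ : ℝ) (hθ₁ : |θ₁| < θ₀) (x : N)
    (m : ℕ) (c : ℝ) (hm : 1 ≤ m) (hx : (H θ₁)^[m] x = ψ c x) :
    ∃ G : ℝ → ℝ → ℝ, Fam1 G ∧ NoTan G (θ₀ - |θ₁|) ∧ G 0 0 = c ∧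
        ∀ θ t, (H (θ₁ + θ))^[m] (ψ t x) = ψ (G θ t) x := by
  have h0 : ∀ y, H (θ₁ + 0) y = ψ θ₁ (F y) := fun y => by rw [add_zero, h.eq]
  refine LIFT.t TAN.t n N r hr (fun θ => H (θ₁ + θ)) ψ a (θ₀ - |θ₁|) h.flow
    (topExt_rot h.top θ₁ h0) ?_ (by linarith) ?_ x m c hm (by simpa using hx)
  · intro θ y
    show H (θ₁ + θ) y = ψ θ (H (θ₁ + 0) y)
    rw [h0, h.eq, ← h.top.add, add_comm]
  · intro θ hθ m p hm hp χ hχ hpχ D hD μ hμ
    refine h.hyp (θ₁ + θ) ?_ m p hm hp χ hχ hpχ D hD μ hμ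
    calc |θ₁ + θ| ≤ |θ₁| + |θ| := abs_add_le _ _
      _ < θ₀ := by linarith

/-- `ψ t x = ψ s x` -/
theorem eq_iff' (h : TopExt F ψ a) (x : N) (s t : ℝ) :
    ψ s x = ψ t x ↔ ∃ j : ℤ, s = t + j := by
  have e : ψ s x = ψ (s - t) (ψ t x) := by rw [← h.add]; congr 1; ring
  rw [e, h.free]
  constructor
  · rintro ⟨j, hj⟩
    exact ⟨j, by linarith⟩
  · rintro ⟨j, hj⟩
    exact ⟨j, by linarith⟩

/-- a lift which fixes `0` fixes the periodic points close to `0` -/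
theorem fix_of {G : ℝ → ℝ} (hm : StrictMono G) (h1 : ∀ t, G (t + 1) = G t + 1) (h0 : G 0 = 0)
    {s : ℝ} (hs : |s| < 1) (j : ℤ) (hj : G s = s + j) : G s = s := by
  have e1 : G 1 = 1 := by have := h1 0; rw [zero_add, h0, zero_add] at this; exact this
  have e2 : G (-1) = -1 := by
    have := h1 (-1)
    rw [neg_add_cancel, h0] at this
    linarith
  obtain ⟨hs1, hs2⟩ := abs_lt.1 hs
  have hj0 : j = 0 := by
    rcases lt_trichotomy s 0 with hneg | hz | hpos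
    · have g1 := hm hneg
      have g2 := hm hs1
      rw [h0] at g1
      rw [e2] at g2
      have a1 : (j : ℝ) < 1 := by linarith
      have a2 : (-1 : ℝ) < j := by linarith
      have b1 : j < 1 := by exact_mod_cast a1
      have b2 : -1 < j := by exact_mod_cast a2
      omega
    · subst hz
      rw [h0, zero_add] at hj
      exact_mod_cast hj.symm
    · have g1 := hm hpos
      have g2 := hm hs2
      rw [h0] at g1
      rw [e1] at g2
      have a1 : (j : ℝ) < 1 := by linarith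
      have a2 : (-1 : ℝ) < j := by linarith
      have b1 : j < 1 := by exact_mod_cast a1
      have b2 : -1 < j := by exact_mod_cast a2
      omega
  rw [hj, hj0]
  simp

/-- part 1 -/
theorem gap (hr : 1 ≤ r) (h : RotFam n N r F ψ a H θ₀) (y : N) (t : ℝ) (hy : y ∈ Per F)
    (ht : ψ t y ∈ Per F) (j : ℤ) (hj : t ≠ j) : θ₀ ≤ |t - j| := by
  by_contra hlt
  push Not at hlt
  obtain ⟨m₁, hm₁, h₁⟩ := hy
  obtain ⟨m₂, hm₂, h₂⟩ := ht
  have e1 : F^[m₁ * m₂] y = y := by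
    rw [Function.iterate_mul]
    exact Function.iterate_fixed h₁ m₂
  have e2 : F^[m₁ * m₂] (ψ t y) = ψ t y := by
    rw [mul_comm, Function.iterate_mul]
    exact Function.iterate_fixed h₂ m₁
  have hH0 : ∀ y, H 0 y = F y := fun y => by rw [h.eq, h.top.zero]
  have hH0' : (H 0 : N → N) = F := funext hH0
  obtain ⟨G, hG, hT, hG0, hGe⟩ := lift_at hr h 0 (by rw [abs_zero]; exact h.pos) y (m₁ * m₂) 0
    (Nat.mul_pos hm₁ hm₂) (by rw [hH0', e1, h.top.zero])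
  rw [abs_zero, sub_zero] at hT
  have hs0 : t - j ≠ 0 := sub_ne_zero.2 hj
  have hst : ψ (t - j) y = ψ t y := (eq_iff' h.top y _ _).2 ⟨-j, by push_cast; ring⟩
  have h3 := hGe 0 (t - j)
  rw [add_zero, hH0', hst, e2] at h3
  obtain ⟨i, hi⟩ := (eq_iff' h.top y _ _).1 h3
  have h4 : G 0 (t - j) = t - j := by
    refine fix_of (hG.mono 0) (hG.one 0) hG0 (hlt.trans h.lt) (j - i) ?_
    push_cast
    linarith
  rcases lt_or_gt_of_ne hs0 with hneg | hpos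
  · have := GAP1.t G θ₀ h.pos hG hT (t - j) 0 hneg h4 hG0
    rw [abs_of_neg hneg] at hlt
    linarith
  · have := GAP1.t G θ₀ h.pos hG hT 0 (t - j) hpos hG0 h4
    rw [abs_of_pos hpos] at hlt
    linarith

/-- part 2 -/
theorem lock (hr : 1 ≤ r) (h : RotFam n N r F ψ a H θ₀) (x : N) (m : ℕ) (c : ℝ) (hm : 1 ≤ m)
    (hx : F^[m] x = ψ c x) : ∃ t : ℝ, ψ t x ∈ Per F := by
  have hH0' : (H 0 : N → N) = F := funext fun y => by rw [h.eq, h.top.zero]
  obtain ⟨G, hG, hT, hG0, hGe⟩ := lift_at hr h 0 (by rw [abs_zero]; exact h.pos) x m c hm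
    (by rw [hH0', hx])
  rw [abs_zero, sub_zero] at hT
  obtain ⟨q, p, t, hq, ht⟩ := LOCK1.t G θ₀ h.pos hG hT
  have hit : ∀ (q : ℕ) (t : ℝ), (F^[m])^[q] (ψ t x) = ψ ((G 0)^[q] t) x := by
    intro q
    induction q with
    | zero => intro t; rfl
    | succ q ih =>
      intro t
      have h3 := hGe 0 t
      rw [add_zero, hH0'] at h3
      rw [Function.iterate_succ_apply, Function.iterate_succ_apply, h3, ih]
  refine ⟨t, m * q, Nat.mul_pos hm hq, ?_⟩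
  rw [Function.iterate_mul, hit, ht]
  exact (eq_iff' h.top x _ _).2 ⟨p, rfl⟩

/-- the periodic points persist -/
theorem persist (hr : 1 ≤ r) (h : RotFam n N r F ψ a H θ₀) (θ₁ : ℝ) (hθ₁ : |θ₁| < θ₀) (W : Set N)
    (hW : IsOpen W) (hne : (Per (H θ₁) ∩ W).Nonempty) :
    ∀ᶠ θ' in 𝓝 θ₁, (Per (H θ') ∩ W).Nonempty := by
  obtain ⟨p, ⟨m, hm, hp⟩, hpW⟩ := hne
  obtain ⟨G, hG, hT, hG0, hGe⟩ := lift_at hr h θ₁ hθ₁ p m 0 hm (by rw [hp, h.top.zero])
  have hc : Continuous fun s : ℝ => ψ s p :=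
    h.top.cont.comp (continuous_id.prodMk continuous_const)
  obtain ⟨ε, hε, hεW⟩ := Metric.isOpen_iff.1 (hW.preimage hc) 0
    (by show ψ 0 p ∈ W; rw [h.top.zero]; exact hpW)
  obtain ⟨κ, hκ, hk⟩ := PERS1.t G (θ₀ - |θ₁|) (by linarith) hG hT 0 hG0 ε hε
  rw [Metric.eventually_nhds_iff]
  refine ⟨κ, hκ, fun θ' hθ' => ?_⟩
  rw [Real.dist_eq] at hθ'
  obtain ⟨s, hs, hsG⟩ := hk (θ' - θ₁) hθ'
  refine ⟨ψ s p, ⟨m, hm, ?_⟩, ?_⟩
  · have h3 := hGe (θ' - θ₁) s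
    rw [hsG] at h3
    rw [show θ₁ + (θ' - θ₁) = θ' by ring] at h3
    exact h3
  · exact hεW (by rw [Metric.mem_ball, Real.dist_eq]; exact hs)

/-- part 3 -/
theorem dense (hr : 1 ≤ r) (h : RotFam n N r F ψ a H θ₀) (B : Type v) [MetricSpace B] (π : N → B)
    (f : B → B) (hπ : OrbitMap F ψ π f) (hf : ClosingProp f) : Omega F ⊆ closure (Per F) := by
  haveI : SecondCountableTopology N := ChartedSpace.secondCountable_of_sigmaCompact (V n) N
  letI : MetricSpace N := TopologicalSpace.metrizableSpaceMetric N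
  have hψπ : ∀ t x, π (ψ t x) = π x := fun t x => ((hπ.eq x (ψ t x)).2 ⟨t, rfl⟩).symm
  obtain ⟨θ, hθ, hd⟩ := BAI.t N (fun θ => H θ) θ₀ h.pos (fun θ hθ W hW hne =>
    persist hr h θ hθ W hW hne) (by
      intro θ hθ z hz W hW hzW
      rw [Metric.nhds_basis_ball.frequently_iff]
      intro ε hε
      obtain ⟨θ', hθ', p, hpW, hp⟩ := CLOS.t N B (H θ) ψ a π f (H θ).continuous
        (topExt_rot h.top θ (h.eq θ)) ⟨hπ.cont, hπ.surj, hπ.eq, fun x => by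
          rw [h.eq, hψπ, hπ.semi]⟩ hf z hz W hW hzW ε hε
      refine ⟨θ + θ', ?_, p, ?_, hpW⟩
      · rw [Metric.mem_ball, Real.dist_eq]
        simpa using hθ'
      · have e : (H (θ + θ') : N → N) = fun y => ψ θ' (H θ y) := funext fun y => by
          rw [h.eq, h.eq, ← h.top.add, add_comm]
        rw [e]
        exact hp)
  exact CONJ.t N F (H θ) F.continuous (h.conj θ hθ) hd

end

end Pool.Agent.N813.CX
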