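import Pool.Agent.N813.CX.Main
import Pool.Agent.Y504.CO.Gen

/-!
# Project CX: extensions of maps whose recurrent points are periodic
-/

set_option autoImplicit false

open scoped Manifold ContDiff Topology
open Filter Set Metric

universe u v

namespace Pool.Agent.N813.CX

open Pool.Agent.H718R2.G Pool.Agent.W564.SC Pool.Agent.TH80.OMS Pool.Agent.TH290.CL
  Pool.Agent.N813.OF Pool.Agent.Y504.CO

/-- the iterates of a lift with a fixed point converge to a fixed point -/
theorem lim_fix {h : ℝ → ℝ} (hc : Continuous h) (hm : Monotone h) (h1 : ∀ s, h (s + 1) = h s + 1)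
    {t : ℝ} (ht : h t = t) (s : ℝ) :
    ∃ w : ℝ, h w = w ∧ Tendsto (fun j => h^[j] s) atTop (𝓝 w) := by
  have hn : ∀ (k : ℕ), h (t + k) = t + k := by
    intro k
    induction k with
    | zero => simpa using ht
    | succ k ih =>
      push_cast
      rw [← add_assoc, h1, ih]
  have hn' : ∀ (k : ℕ), h (t - k) = t - k := by
    intro k
    induction k with
    | zero => simpa using ht
    | succ k ih =>
      have e := h1 (t - (k + 1 : ℕ))
      push_cast at e ⊢
      rw [show t - ((k : ℝ) + 1) + 1 = t - k by ring, ih] at e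
      linarith
  have key : ∃ w, Tendsto (fun j => h^[j] s) atTop (𝓝 w) := by
    rcases le_total s (h s) with hs | hs
    · have hmon := hm.monotone_iterate_of_le_map hs
      obtain ⟨k, hk⟩ := exists_nat_gt (s - t)
      refine ⟨_, tendsto_atTop_ciSup hmon ⟨t + k, ?_⟩⟩
      rintro _ ⟨j, rfl⟩
      have : ∀ j, h^[j] s ≤ t + k := by
        intro j
        induction j with
        | zero => simp only [Function.iterate_zero, id]; linarith
        | succ j ih =>
          rw [Function.iterate_succ_apply', ← hn k]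
          exact hm ih
      exact this j
    · have hmon := hm.antitone_iterate_of_map_le hs
      obtain ⟨k, hk⟩ := exists_nat_gt (t - s)
      refine ⟨_, tendsto_atTop_ciInf hmon ⟨t - k, ?_⟩⟩
      rintro _ ⟨j, rfl⟩
      have : ∀ j, t - k ≤ h^[j] s := by
        intro j
        induction j with
        | zero => simp only [Function.iterate_zero, id]; linarith
        | succ j ih =>
          rw [Function.iterate_succ_apply', ← hn' k]
          exact hm ih
      exact this j
  obtain ⟨w, hw⟩ := key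
  exact ⟨w, isFixedPt_of_tendsto_iterate hw hc.continuousAt, hw⟩

/-- iterates of a lift -/
theorem iter_lift {g : ℝ → ℝ} (hc : Continuous g) (hm : StrictMono g)
    (h1 : ∀ s, g (s + 1) = g s + 1) (n : ℕ) :
    Continuous g^[n] ∧ StrictMono g^[n] ∧ ∀ s, g^[n] (s + 1) = g^[n] s + 1 := by
  refine ⟨hc.iterate n, hm.iterate n, ?_⟩
  induction n with
  | zero => intro s; rfl
  | succ n ih =>
    intro s
    rw [Function.iterate_succ_apply, h1, ih, Function.iterate_succ_apply]

/-- a recurrent point is periodic if the points `F^(M j) z` converge to a periodic point -/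
theorem per_of_lim {N : Type u} [TopologicalSpace N] [T2Space N] {F : N → N} (hF : Continuous F)
    {z y : N} {M : ℕ} (hM : 1 ≤ M) (hz : z ∈ Rec F) (hy : F^[M] y = y)
    (hlim : Tendsto (fun j => F^[M * j] z) atTop (𝓝 y)) : z ∈ Per F := by
  by_contra hper
  have hs : ∀ s : ℕ, ∃ W ∈ 𝓝 z, ∀ᶠ j in atTop, F^[s] (F^[M * j] z) ∉ W := by
    intro s
    have hne : z ≠ F^[s] y := by
      intro h
      apply hper
      refine ⟨M, hM, ?_⟩
      rw [h, ← Function.iterate_add_apply, add_comm, Function.iterate_add_apply, hy]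
    obtain ⟨W, W', hW, hW', hd⟩ := t2_separation_nhds hne
    refine ⟨W, hW, ?_⟩
    have h1 : Tendsto (fun j => F^[s] (F^[M * j] z)) atTop (𝓝 (F^[s] y)) :=
      ((hF.iterate s).tendsto y).comp hlim
    exact (h1.eventually_mem hW').mono fun j hj hj' => disjoint_left.1 hd hj' hj
  choose W hW hev using hs
  have hall : ∀ᶠ j in atTop, ∀ s ∈ Finset.range M, F^[s] (F^[M * j] z) ∉ W s :=
    (Filter.eventually_all_finset _).2 fun s _ => hev s
  obtain ⟨J, hJ⟩ := eventually_atTop.1 hall
  have hfin : ((fun k => F^[k] z) '' (Set.Icc 1 (M * J))).Finite := (Set.finite_Icc _ _).image _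
  have hW' : (⋂ s ∈ Finset.range M, W s) ∩ ((fun k => F^[k] z) '' (Set.Icc 1 (M * J)))ᶜ ∈ 𝓝 z := by
    refine inter_mem ((Filter.biInter_finset_mem _).2 fun s _ => hW s)
      (hfin.isClosed.isOpen_compl.mem_nhds ?_)
    rintro ⟨k, hk, hkz⟩
    exact hper ⟨k, hk.1, hkz⟩
  obtain ⟨k, hk, hkW⟩ := hz _ hW'
  rcases le_or_gt k (M * J) with h | h
  · exact hkW.2 ⟨k, ⟨hk, h⟩, rfl⟩
  · have h2 : J ≤ k / M := by
      rw [Nat.le_div_iff_mul_le (by omega), mul_comm]
      exact h.le
    have h3 := hJ (k / M) h2 (k % M) (Finset.mem_range.2 (Nat.mod_lt _ (by omega)))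
    rw [← Function.iterate_add_apply, Nat.mod_add_div] at h3
    exact h3 (mem_iInter₂.1 hkW.1 (k % M) (Finset.mem_range.2 (Nat.mod_lt _ (by omega))))

section

variable {n : ℕ} {N : Type u} [TopologicalSpace N] [T2Space N] [CompactSpace N]
  [ChartedSpace (V n) N] [IsManifold (𝓡 n) ∞ N] {r : ℕ∞}
  {F : DiffM n N r} {ψ : ℝ → N → N} {a : N → ℝ → ℝ} {H : ℝ → DiffM n N r} {θ₀ : ℝ}

/-- recurrent points in periodic fibres are periodic -/
theorem rec_fibre (hr : 1 ≤ r) (h : RotFam n N r F ψ a H θ₀) {z : N} (hz : z ∈ Rec F) {m : ℕ}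
    {c : ℝ} (hm : 1 ≤ m) (hzm : F^[m] z = ψ c z) : z ∈ Per F := by
  have hH0' : (H 0 : N → N) = F := funext fun y => by rw [h.eq, h.top.zero]
  obtain ⟨t, k, hk, ht⟩ := lock hr h z m c hm hzm
  obtain ⟨G, hG, -, -, hGe⟩ := lift_at hr h 0 (by rw [abs_zero]; exact h.pos) z m c hm
    (by rw [hH0', hzm])
  have hc0 : Continuous (G 0) := hG.cont.comp (continuous_const.prodMk continuous_id)
  have hit : ∀ (q : ℕ) (t : ℝ), (F^[m])^[q] (ψ t z) = ψ ((G 0)^[q] t) z := by
    intro q
    induction q with
    | zero => intro t; rfl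
    | succ q ih =>
      intro t
      have h3 := hGe 0 t
      rw [add_zero, hH0'] at h3
      rw [Function.iterate_succ_apply, Function.iterate_succ_apply, h3, ih]
  obtain ⟨g1, g2, g3⟩ := iter_lift hc0 (hG.mono 0) (hG.one 0) k
  have hfix : F^[m * k] (ψ t z) = ψ t z := by
    rw [mul_comm, Function.iterate_mul]
    exact Function.iterate_fixed ht m
  have hgt : ψ ((G 0)^[k] t) z = ψ t z := by
    rw [← hit, ← Function.iterate_mul, hfix]
  obtain ⟨p, hp⟩ := (eq_iff' h.top z _ _).1 hgt
  obtain ⟨w, hw, hlim⟩ := lim_fix (h := fun s => (G 0)^[k] s - p) (g1.sub continuous_const)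
    (fun s s' hs => by simpa using g2.monotone hs) (fun s => by rw [g3]; ring)
    (t := t) (by rw [hp]; ring) 0
  have hstep : ∀ s : ℝ, F^[m * k] (ψ s z) = ψ ((G 0)^[k] s - p) z := by
    intro s
    rw [Function.iterate_mul, hit]
    exact (eq_iff' h.top z _ _).2 ⟨p, by ring⟩
  have hj : ∀ j : ℕ, F^[m * k * j] z = ψ ((fun s => (G 0)^[k] s - p)^[j] 0) z := by
    intro j
    induction j with
    | zero => simp [h.top.zero]
    | succ j ih =>
      rw [mul_add, mul_one, add_comm, Function.iterate_add_apply, ih, hstep,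
        Function.iterate_succ_apply']
  refine per_of_lim F.continuous (M := m * k) (y := ψ w z) (Nat.mul_pos hm hk) hz ?_ ?_
  · rw [hstep]
    exact congrArg (fun s => ψ s z) hw
  · simp only [hj]
    exact ((h.top.cont.comp (continuous_id.prodMk continuous_const)).tendsto w).comp hlim

/-- part 4 -/
theorem finite_of_rec (hr : 1 ≤ r) (hF : OmegaStable n N r F) (h : RotFam n N r F ψ a H θ₀)
    (B : Type v) [TopologicalSpace B] (π : N → B) (f : B → B) (hπ : OrbitMap F ψ π f)
    (hf : Rec f ⊆ Per f) : FiniteNoCycle F ∧ ∀ p ∈ Omega F, IsHyperbolicPer n F p := by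
  apply Gen.stable hr hF
  have hsemi : ∀ (k : ℕ) (x : N), π (F^[k] x) = f^[k] (π x) := by
    intro k
    induction k with
    | zero => intro x; rfl
    | succ k ih =>
      intro x
      rw [Function.iterate_succ_apply', Function.iterate_succ_apply', hπ.semi, ih]
  have hsub : Rec F ⊆ Per F := by
    intro z hz
    have hb : π z ∈ Rec f := by
      intro W hW
      obtain ⟨k, hk, hkW⟩ := hz _ (hπ.cont.continuousAt.preimage_mem_nhds hW)
      exact ⟨k, hk, by rw [← hsemi]; exact hkW⟩
    obtain ⟨m, hm, hmz⟩ := hf hb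
    have e : π z = π (F^[m] z) := by rw [hsemi, hmz]
    obtain ⟨c, hc⟩ := (hπ.eq _ _).1 e
    exact rec_fibre hr h hz hm hc
  rw [sdiff_eq_empty.2 hsub]
  exact countable_empty

end

end Pool.Agent.N813.CX
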