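import Pool.Agent.N813.CX.Defs

/-!
# Project CX: statements of the parts
-/

set_option autoImplicit false

open scoped Manifold ContDiff Topology
open Filter Set Metric

universe u v

namespace Pool.Agent.N813.CX

open Pool.Agent.H718R2.G Pool.Agent.W564.SC Pool.Agent.TH80.OMS Pool.Agent.TH290.CL
  Pool.Agent.N813.OF

/-- GAP1: fixed points are not close. -/
def S_GAP1 : Prop :=
  ∀ (G : ℝ → ℝ → ℝ) (θ₀ : ℝ), 0 < θ₀ → Fam1 G → NoTan G θ₀ → ∀ s t : ℝ, s < t → G 0 s = s →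
    G 0 t = t → θ₀ ≤ t - s

/-- LOCK1: there are periodic points. -/
def S_LOCK1 : Prop :=
  ∀ (G : ℝ → ℝ → ℝ) (θ₀ : ℝ), 0 < θ₀ → Fam1 G → NoTan G θ₀ →
    ∃ (q : ℕ) (p : ℤ) (t : ℝ), 1 ≤ q ∧ (G 0)^[q] t = t + p

/-- PERS1: persistence of fixed points. -/
def S_PERS1 : Prop :=
  ∀ (G : ℝ → ℝ → ℝ) (θ₀ : ℝ), 0 < θ₀ → Fam1 G → NoTan G θ₀ → ∀ t : ℝ, G 0 t = t →
    ∀ ε : ℝ, 0 < ε → ∃ κ : ℝ, 0 < κ ∧ ∀ θ : ℝ, |θ| < κ → ∃ s : ℝ, |s - t| < ε ∧ G θ s = s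

/-- TAN: a one-sided tangency along an orbit of the flow gives the eigenvalue one. -/
def S_TAN : Prop :=
  ∀ (n : ℕ) (N : Type u) [TopologicalSpace N] [T2Space N] [CompactSpace N]
    [ChartedSpace (V n) N] [IsManifold (𝓡 n) ∞ N] (r : ℕ∞), 1 ≤ r → ∀ (G : DiffM n N r)
    (ψ : ℝ → N → N), IsFlow n N ψ → ∀ (y : N) (m : ℕ) (h : ℝ → ℝ), 1 ≤ m →
    (∃ t : ℝ, ψ t y ≠ y) → Continuous h → h 0 = 0 → (∀ᶠ s in 𝓝 0, G^[m] (ψ s y) = ψ (h s) y) →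
    ((∀ᶠ s in 𝓝 0, s ≤ h s) ∨ ∀ᶠ s in 𝓝 0, h s ≤ s) →
    ∀ χ ∈ IsManifold.maximalAtlas (𝓡 n) ∞ N, y ∈ χ.source →
      ∃ D : V n →L[ℝ] V n, DerAt G χ m y D ∧ Eig D 1

/-- LIFT: the return maps of the fibres. -/
def S_LIFT : Prop :=
  ∀ (n : ℕ) (N : Type u) [TopologicalSpace N] [T2Space N] [CompactSpace N]
    [ChartedSpace (V n) N] [IsManifold (𝓡 n) ∞ N] (r : ℕ∞), 1 ≤ r → ∀ (H : ℝ → DiffM n N r)
    (ψ : ℝ → N → N) (a : N → ℝ → ℝ) (θ₀ : ℝ), IsFlow n N ψ → TopExt (H 0) ψ a →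
    (∀ θ y, H θ y = ψ θ (H 0 y)) → 0 < θ₀ →
    (∀ θ : ℝ, |θ| < θ₀ → ∀ (m : ℕ) (p : N), 1 ≤ m → (H θ)^[m] p = p →
        ∀ χ ∈ IsManifold.maximalAtlas (𝓡 n) ∞ N, p ∈ χ.source → ∀ D : V n →L[ℝ] V n,
          DerAt (H θ) χ m p D → ∀ μ : ℂ, Eig D μ → ‖μ‖ ≠ 1) →
    ∀ (x : N) (m : ℕ) (c : ℝ), 1 ≤ m → (H 0)^[m] x = ψ c x →
      ∃ G : ℝ → ℝ → ℝ, Fam1 G ∧ NoTan G θ₀ ∧ G 0 0 = c ∧
        ∀ θ t, (H θ)^[m] (ψ t x) = ψ (G θ t) x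

/-- CLOS: nonwandering points can be closed by small rotations of the fibres. -/
def S_CLOS : Prop :=
  ∀ (N : Type u) [MetricSpace N] [CompactSpace N] (B : Type v) [MetricSpace B] (F : N → N)
    (ψ : ℝ → N → N) (a : N → ℝ → ℝ) (π : N → B) (f : B → B), Continuous F → TopExt F ψ a →
    OrbitMap F ψ π f → ClosingProp f → ∀ z ∈ Omega F, ∀ W : Set N, IsOpen W → z ∈ W →
    ∀ ε : ℝ, 0 < ε → ∃ θ : ℝ, |θ| < ε ∧ ∃ p ∈ W, p ∈ Per fun y => ψ θ (F y)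

/-- BAI: a Baire category argument. -/
def S_BAI : Prop :=
  ∀ (N : Type u) [TopologicalSpace N] [SecondCountableTopology N] (H : ℝ → N → N) (θ₀ : ℝ),
    0 < θ₀ →
    (∀ θ : ℝ, |θ| < θ₀ → ∀ W : Set N, IsOpen W → (Per (H θ) ∩ W).Nonempty →
      ∀ᶠ θ' in 𝓝 θ, (Per (H θ') ∩ W).Nonempty) →
    (∀ θ : ℝ, |θ| < θ₀ → ∀ z ∈ Omega (H θ), ∀ W : Set N, IsOpen W → z ∈ W →
      ∃ᶠ θ' in 𝓝 θ, (Per (H θ') ∩ W).Nonempty) →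
    ∃ θ : ℝ, |θ| < θ₀ ∧ Omega (H θ) ⊆ closure (Per (H θ))

/-- CONJ: density of the periodic points is invariant under `Ω`-conjugacies. -/
def S_CONJ : Prop :=
  ∀ (N : Type u) [TopologicalSpace N] (F G : N → N), Continuous F → OmegaConj F G →
    Omega G ⊆ closure (Per G) → Omega F ⊆ closure (Per F)

end Pool.Agent.N813.CX
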